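import Pool.Agent.H420Z.Apery.Check

/-!
Binomial identities.
-/

namespace Pool.Agent.H420Z.Apery

open Finset

lemma c1 {K : Type*} [Field K] (n k : ℕ) :
    (n.choose k : K) * (n + 1) = ((n + 1).choose k : K) * (n + 1 - k) := by
  by_cases h : k ≤ n + 1
  · have := congrArg (Nat.cast : ℕ → K) (Nat.choose_mul_succ_eq n k)
    push_cast [Nat.cast_sub h] at this
    exact this
  · rw [Nat.choose_eq_zero_of_lt (by omega), Nat.choose_eq_zero_of_lt (by omega)]; simp

lemma c2 {K : Type*} [Field K] (n k : ℕ) :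
    ((n + 1).choose (k + 1) : K) * (k + 1) = (n + 1) * (n.choose k : K) := by
  have := congrArg (Nat.cast : ℕ → K) (Nat.add_one_mul_choose_eq n k)
  push_cast at this
  exact this.symm

lemma c3 {K : Type*} [Field K] (n k : ℕ) :
    (n.choose (k + 1) : K) * (k + 1) = (n.choose k : K) * (n - k) := by
  by_cases h : k ≤ n
  · have := congrArg (Nat.cast : ℕ → K) (Nat.choose_succ_right_eq n k)
    push_cast [Nat.cast_sub h] at this
    exact this
  · rw [Nat.choose_eq_zero_of_lt (by omega), Nat.choose_eq_zero_of_lt (by omega)]; simp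

/-- Summand of the second sequence. -/
noncomputable def FB (n k : ℕ) : ℝ := (n.choose k : ℝ) ^ 2 * ((n + k).choose k : ℝ)

lemma FB_tel (n K : ℕ) :
    ∑ k ∈ range (K + 1), (((n : ℝ) + 2) ^ 2 * FB (n + 2) k -
      (11 * ((n : ℝ) + 1) ^ 2 + 11 * (n + 1) + 3) * FB (n + 1) k - ((n : ℝ) + 1) ^ 2 * FB n k) =
    ((K : ℝ) ^ 2 + 3 * (2 * (n + 1) + 1) * K - 11 * (n + 1) ^ 2 - 9 * (n + 1) - 2) *
      FB (n + 1) K := by
  induction K with
  | zero => simp [FB]; ring
  | succ k ih =>
    rw [sum_range_succ, ih]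
    simp only [FB]
    have a1 := c1 (K := ℝ) (n + 1) (k + 1)
    have a2 := c1 (K := ℝ) n (k + 1)
    have a3 := c2 (K := ℝ) (n + 1) k
    have a4 := c2 (K := ℝ) (n + 1 + k) k
    have a5 := c1 (K := ℝ) (n + 1 + k + 1) (k + 1)
    have a6 := c3 (K := ℝ) (n + 1 + k) k
    have e1 : n + 1 + (k + 1) = n + 1 + k + 1 := by ring
    have e2 : n + 2 + (k + 1) = n + 1 + k + 1 + 1 := by ring
    have e3 : n + (k + 1) = n + 1 + k := by ring
    have e4 : n + 2 = n + 1 + 1 := by ring
    rw [e1, e2, e3, e4]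
    push_cast at *
    set u : ℝ := ((n + 1 + 1).choose (k + 1) : ℝ)
    set w : ℝ := ((n + 1 + k).choose k : ℝ)
    have hn1 : (n : ℝ) + 1 ≠ 0 := by positivity
    have hn2 : (n : ℝ) + 2 ≠ 0 := by positivity
    have hk1 : (k : ℝ) + 1 ≠ 0 := by positivity
    have b1 : ((n + 1).choose (k + 1) : ℝ) = u * (n + 1 - k) / (n + 2) := by
      field_simp; linear_combination a1
    have b2 : (n.choose (k + 1) : ℝ) = u * (n + 1 - k) / (n + 2) * (n - k) / (n + 1) := by
      rw [← b1]; field_simp; linear_combination a2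
    have b3 : ((n + 1).choose k : ℝ) = u * (k + 1) / (n + 2) := by
      field_simp; linear_combination -a3
    have b4 : ((n + 1 + k + 1).choose (k + 1) : ℝ) = w * (n + k + 2) / (k + 1) := by
      field_simp; linear_combination a4
    have b5 : ((n + 1 + k + 1 + 1).choose (k + 1) : ℝ) =
        w * (n + k + 2) / (k + 1) * (n + k + 3) / (n + 2) := by
      rw [← b4]; field_simp; linear_combination -a5
    have b6 : ((n + 1 + k).choose (k + 1) : ℝ) = w * (n + 1) / (k + 1) := by
      field_simp; linear_combination a6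
    rw [b1, b2, b3, b4, b5, b6]
    field_simp
    ring

lemma Bn_cast (n K : ℕ) (h : n ≤ K) : (Bn n : ℝ) = ∑ k ∈ range (K + 1), FB n k := by
  simp only [Bn, FB]
  push_cast
  refine sum_subset (range_subset_range.2 (by omega)) ?_
  intro k _ hk
  rw [Nat.choose_eq_zero_of_lt (by simpa using hk)]; simp

lemma Bn_rec (n : ℕ) : ((n : ℝ) + 2) ^ 2 * Bn (n + 2) =
    (11 * ((n : ℝ) + 1) ^ 2 + 11 * (n + 1) + 3) * Bn (n + 1) + ((n : ℝ) + 1) ^ 2 * Bn n := by
  have h := FB_tel n (n + 2)
  have z : FB (n + 1) (n + 2) = 0 := by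
    simp only [FB]; rw [Nat.choose_eq_zero_of_lt (by omega)]; simp
  rw [z, mul_zero, sum_sub_distrib, sum_sub_distrib, ← mul_sum, ← mul_sum, ← mul_sum,
    ← Bn_cast _ _ le_rfl, ← Bn_cast _ _ (by omega), ← Bn_cast _ _ (by omega)] at h
  linarith

lemma Bn_ge (n : ℕ) : n.centralBinom ≤ Bn n := by
  have := single_le_sum (f := fun j => n.choose j ^ 2 * (n + j).choose j)
    (fun _ _ => Nat.zero_le _) (self_mem_range_succ n)
  simpa [Bn, Nat.centralBinom, two_mul] using this

lemma An_ge (n : ℕ) : n.centralBinom ^ 2 ≤ An n := by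
  have := single_le_sum (f := fun j => n.choose j ^ 2 * (n + j).choose j ^ 2)
    (fun _ _ => Nat.zero_le _) (self_mem_range_succ n)
  simpa [An, Nat.centralBinom, two_mul] using this

end Pool.Agent.H420Z.Apery
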