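import Pool.Agent.H420Z.Apery.Core

/-!
A kernel-friendly checker for the finite part.
-/

namespace Pool.Agent.H420Z.Apery

open Finset

/-- Evaluate `x` before passing it on. -/
def force {β : Type} (x : ℕ) (k : ℕ → β) : β := Nat.rec (k 0) (fun n _ => k (n + 1)) x

lemma force_eq {β : Type} (x : ℕ) (k : ℕ → β) : force x k = k x := by cases x <;> rfl

/-- One step of the operator, in continuation style. -/
def stepK {β : Type} : List ℕ → ℕ → ℕ → (List ℕ → β) → β
  | [], _, _, k => k []
  | c :: l, a, b, k => force (a * c - b * b) fun x => stepK l b c fun r => k (x :: r)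

/-- One step of the operator. -/
def stepP : List ℕ → ℕ → ℕ → List ℕ
  | [], _, _ => []
  | c :: l, a, b => (a * c - b * b) :: stepP l b c

lemma stepK_eq {β : Type} (l : List ℕ) (a b : ℕ) (k : List ℕ → β) :
    stepK l a b k = k (stepP l a b) := by
  induction l generalizing a b k with
  | nil => rfl
  | cons c l ih => simp only [stepK, stepP, force_eq, ih]

lemma stepP_length (l : List ℕ) (a b : ℕ) : (stepP l a b).length = l.length := by
  induction l generalizing a b with
  | nil => rfl
  | cons c l ih => simp [stepP, ih]

lemma stepP_get (l : List ℕ) (a b i : ℕ) (hi : i < l.length) :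
    (stepP l a b).getD i 0 = (a :: b :: l).getD i 0 * (a :: b :: l).getD (i + 2) 0 -
      (a :: b :: l).getD (i + 1) 0 * (a :: b :: l).getD (i + 1) 0 := by
  induction l generalizing a b i with
  | nil => simp at hi
  | cons c l ih =>
    cases i with
    | zero => simp [stepP]
    | succ i =>
      have := ih b c i (by simpa using hi)
      simpa [stepP] using this

/-- All entries positive. -/
def allPos : List ℕ → Bool
  | [] => true
  | a :: l => Nat.blt 0 a && allPos l

lemma allPos_get (l : List ℕ) (h : allPos l = true) (i : ℕ) (hi : i < l.length) :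
    0 < l.getD i 0 := by
  induction l generalizing i with
  | nil => simp at hi
  | cons c l ih =>
    simp only [allPos, Bool.and_eq_true, Nat.blt_eq] at h
    cases i with
    | zero => simpa using h.1
    | succ i => simpa using ih h.2 i (by simpa using hi)

/-- The final strong convexity check. -/
def finalR : List ℕ → ℕ → ℕ → Bool
  | [], _, _ => true
  | c :: l, a, b => Nat.ble (3 * (b * b)) (a * c) && finalR l b c

lemma finalR_get (l : List ℕ) (a b : ℕ) (h : finalR l a b = true) (i : ℕ) (hi : i < l.length) :
    3 * ((a :: b :: l).getD (i + 1) 0 * (a :: b :: l).getD (i + 1) 0) ≤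
      (a :: b :: l).getD i 0 * (a :: b :: l).getD (i + 2) 0 := by
  induction l generalizing a b i with
  | nil => simp at hi
  | cons c l ih =>
    simp only [finalR, Bool.and_eq_true, Nat.ble_eq] at h
    cases i with
    | zero => simpa using h.1
    | succ i =>
      have := ih b c h.2 i (by simpa using hi)
      simpa using this

/-- The checker. -/
def chk : ℕ → List ℕ → Bool
  | 0, a :: b :: l => allPos (a :: b :: l) && finalR l a b
  | n + 1, a :: b :: l => allPos (a :: b :: l) && stepK l a b (chk n)
  | _, _ => false

lemma chk_pos {n : ℕ} {l : List ℕ} (h : chk n l = true) : allPos l = true := by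
  rcases l with _ | ⟨a, _ | ⟨b, l⟩⟩
  · rfl
  · cases n <;> simp [chk] at h
  · cases n <;> simp only [chk, Bool.and_eq_true] at h <;> exact h.1

lemma chk_sound (n : ℕ) (l : List ℕ) (x : ℕ → ℝ) (hx : ∀ i < l.length, (l.getD i 0 : ℝ) = x i)
    (h : chk n l = true) :
    (∀ k ≤ n, ∀ i, i + 2 * k < l.length → 0 < L^[k] x i) ∧
      ∀ i, i + 2 * n + 2 < l.length → R (L^[n] x) i := by
  induction n generalizing l x with
  | zero =>
    have hp := allPos_get l (chk_pos h)
    have hp' : ∀ i < l.length, 0 < x i := fun i hi => by
      rw [← hx i hi]; exact_mod_cast hp i hi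
    refine ⟨fun k hk i hi => ?_, fun i hi => ?_⟩
    · obtain rfl : k = 0 := by omega
      exact hp' i (by omega)
    · rcases l with _ | ⟨a, _ | ⟨b, l⟩⟩
      · simp at hi
      · simp at hi
      · simp only [chk, Bool.and_eq_true] at h
        have := finalR_get l a b h.2 i (by simpa using hi)
        refine ⟨hp' _ (by omega), hp' _ (by omega), hp' _ (by omega), ?_⟩
        show 3 * x (i + 1) ^ 2 ≤ x i * x (i + 2)
        rw [← hx i (by omega), ← hx (i + 1) (by omega), ← hx (i + 2) (by omega), sq]
        exact_mod_cast this
  | succ n ih =>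
    have hp := allPos_get l (chk_pos h)
    rcases l with _ | ⟨a, _ | ⟨b, l⟩⟩
    · simp [chk] at h
    · simp [chk] at h
    · simp only [chk, Bool.and_eq_true, stepK_eq] at h
      have hq := allPos_get _ (chk_pos h.2)
      have hx' : ∀ i < (stepP l a b).length, ((stepP l a b).getD i 0 : ℝ) = L x i := by
        intro i hi
        have h1 := hq i hi
        rw [stepP_length] at hi
        rw [stepP_get l a b i hi] at h1 ⊢
        simp only [List.length_cons] at hx
        rw [Nat.cast_sub (by omega)]
        simp only [L]
        rw [← hx i (by omega), ← hx (i + 1) (by omega), ← hx (i + 2) (by omega), sq]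
        push_cast; ring
      obtain ⟨i1, i2⟩ := ih _ _ hx' h.2
      rw [stepP_length] at i1 i2
      simp only [List.length_cons] at hx hp ⊢
      refine ⟨fun k hk i hi => ?_, fun i hi => ?_⟩
      · cases k with
        | zero =>
          show 0 < x i
          rw [← hx i (by omega)]; exact_mod_cast hp i (by omega)
        | succ k => rw [Function.iterate_succ_apply]; exact i1 k (by omega) i (by omega)
      · rw [Function.iterate_succ_apply]; exact i2 i (by omega)

/-- Tabulate `f` on `s, s+1, ..., s+n-1`, in continuation style. -/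
def tabK {β : Type} (f : ℕ → ℕ) : ℕ → ℕ → (List ℕ → β) → β
  | 0, _, k => k []
  | n + 1, s, k => force (f s) fun x => tabK f n (s + 1) fun r => k (x :: r)

lemma tabK_eq {β : Type} (f : ℕ → ℕ) (n s : ℕ) (k : List ℕ → β) :
    tabK f n s k = k ((List.range' s n).map f) := by
  induction n generalizing s k with
  | zero => rfl
  | succ n ih => simp only [tabK, force_eq, ih, List.range'_succ, List.map_cons]

/-- Fast binomial coefficient. -/
def ch (n k : ℕ) : ℕ := n.descFactorial k / k.factorial

lemma ch_eq (n k : ℕ) : ch n k = n.choose k := (Nat.choose_eq_descFactorial_div_factorial n k).symm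

/-- Plain recursive sum. -/
def sumTo (f : ℕ → ℕ) : ℕ → ℕ
  | 0 => 0
  | n + 1 => sumTo f n + f n

lemma sumTo_eq (f : ℕ → ℕ) (n : ℕ) : sumTo f n = ∑ j ∈ range n, f j := by
  induction n with
  | zero => rfl
  | succ n ih => rw [sum_range_succ, ← ih]; rfl

/-- The first Apery sequence. -/
def An (m : ℕ) : ℕ := ∑ j ∈ range (m + 1), m.choose j ^ 2 * (m + j).choose j ^ 2

/-- The second Apery sequence. -/
def Bn (m : ℕ) : ℕ := ∑ j ∈ range (m + 1), m.choose j ^ 2 * (m + j).choose j

/-- Executable form of the first sequence. -/
def An' (m : ℕ) : ℕ := sumTo (fun j => force (ch m j * ch (m + j) j) fun x => x * x) (m + 1)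

/-- Executable form of the second sequence. -/
def Bn' (m : ℕ) : ℕ := sumTo (fun j => force (ch m j) fun x => x * x * ch (m + j) j) (m + 1)

lemma An'_eq : An' = An := by
  ext m
  simp only [An', An, sumTo_eq, force_eq, ch_eq]
  exact sum_congr rfl fun j _ => by ring

lemma Bn'_eq : Bn' = Bn := by
  ext m
  simp only [Bn', Bn, sumTo_eq, force_eq, ch_eq]
  exact sum_congr rfl fun j _ => by ring

lemma finite_of_chk (f : ℕ → ℕ) (h : tabK f 118 0 (chk 12) = true) :
    (∀ k ≤ 12, ∀ i < 80, 0 < L^[k] (fun m => (f m : ℝ)) i) ∧
      ∀ i < 92, R (L^[12] (fun m => (f m : ℝ))) i := by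
  rw [tabK_eq] at h
  obtain ⟨h1, h2⟩ := chk_sound 12 _ (fun m => (f m : ℝ)) (by
    intro i hi
    simp only [List.length_map, List.length_range'] at hi
    simp [List.getD_eq_getElem?_getD, hi]) h
  simp only [List.length_map, List.length_range'] at h1 h2
  exact ⟨fun k hk i hi => h1 k hk i (by omega), fun i hi => h2 i (by omega)⟩

end Pool.Agent.H420Z.Apery
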