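import Pool.Agent.H420Z.Apery.Check

namespace Pool.Agent.H420Z.Apery

theorem chkB : tabK Bn' 118 0 (chk 12) = true := by decide +kernel

end Pool.Agent.H420Z.Apery
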