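import Pool.Agent.H420Z.Apery.SM

/-!
Abstract criterion for infinite log-convexity.
-/

namespace Pool.Agent.H420Z.Apery

open Finset

/-- A window decomposition of `a` starting at `i`. -/
def Window (a : ℕ → ℝ) (i : ℕ) : Prop :=
  ∃ τ v s : ℕ → ℝ, SM s ∧ (∀ m, 0 < s m) ∧ SM v ∧ (∀ m, 0 < τ m) ∧
    (∀ m, τ m * τ (m + 2) = τ (m + 1) ^ 2 * (1 + v m)) ∧
    (∀ m : ℕ, 1 ≤ 2 * ((i : ℝ) + m + 2) ^ 2 * v m) ∧
    ∀ m ≤ i, |a (i + m) - τ m * s m| ≤ 8 * (i : ℝ) ^ 2 / 16 ^ i * (τ m * s m)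

lemma good_iter {τ v s : ℕ → ℝ} (hs : SM s) (hs0 : ∀ m, 0 < s m) (hv : SM v)
    (hv0 : ∀ m, 0 < v m) (hτ : ∀ m, τ m * τ (m + 2) = τ (m + 1) ^ 2 * (1 + v m)) (k : ℕ) :
    ∃ t : ℕ → ℝ, SM t ∧ (∀ m, 0 < t m) ∧ SM (fun m => v (m + k)) ∧
      ∀ m, L^[k] (fun m => τ m * s m) m = τ (m + k) ^ (2 ^ k) * t m := by
  induction k with
  | zero => exact ⟨s, hs, hs0, hv, fun m => by simp⟩
  | succ k ih =>
    obtain ⟨t, ht, ht0, hvk, h⟩ := ih
    have h1 := hvk.pow_sub_one (2 ^ k)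
    refine ⟨fun m => (L t m + ((1 + v (m + k)) ^ (2 ^ k) - 1) * L t m) +
      ((1 + v (m + k)) ^ (2 ^ k) - 1) * (t (m + 1) * t (m + 1)),
      (ht.L.add (h1.mul ht.L)).add (h1.mul (ht.shift.mul ht.shift)), ?_, ?_, ?_⟩
    · intro m
      have a1 := ht.L.nonneg m
      have a2 : 0 < (1 + v (m + k)) ^ (2 ^ k) - 1 := by
        have : 1 < (1 + v (m + k)) ^ (2 ^ k) :=
          one_lt_pow₀ (by linarith [hv0 (m + k)]) (by positivity)
        linarith
      have a3 := ht0 (m + 1)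
      positivity
    · have := hvk.shift
      simpa [add_assoc, add_comm 1 k] using this
    · intro m
      rw [Function.iterate_succ_apply']
      simp only [L, h]
      have e1 : m + 2 + k = m + k + 2 := by ring
      have e2 : m + 1 + k = m + k + 1 := by ring
      have e3 : m + (k + 1) = m + k + 1 := by ring
      rw [e1, e2, e3]
      have e4 : τ (m + k) ^ (2 ^ k) * τ (m + k + 2) ^ (2 ^ k) =
          τ (m + k + 1) ^ (2 ^ (k + 1)) * (1 + v (m + k)) ^ (2 ^ k) := by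
        rw [← mul_pow, hτ, mul_pow, ← pow_mul, pow_succ' 2 k]
      have e5 : (τ (m + k + 1) ^ (2 ^ k)) ^ 2 = τ (m + k + 1) ^ (2 ^ (k + 1)) := by
        rw [← pow_mul, pow_succ 2 k]
      calc _ = (τ (m + k) ^ (2 ^ k) * τ (m + k + 2) ^ (2 ^ k)) * (t m * t (m + 2)) -
            (τ (m + k + 1) ^ (2 ^ k)) ^ 2 * t (m + 1) ^ 2 := by ring
        _ = _ := by rw [e4, e5]; ring

lemma good_ratio {τ v s : ℕ → ℝ} (hs : SM s) (hs0 : ∀ m, 0 < s m) (hv : SM v)
    (hv0 : ∀ m, 0 < v m) (hτ0 : ∀ m, 0 < τ m)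
    (hτ : ∀ m, τ m * τ (m + 2) = τ (m + 1) ^ 2 * (1 + v m)) (k m : ℕ) :
    0 < L^[k] (fun m => τ m * s m) m ∧
    (1 + 2 ^ k * v (m + k)) * (L^[k] (fun m => τ m * s m) (m + 1)) ^ 2 ≤
      L^[k] (fun m => τ m * s m) m * L^[k] (fun m => τ m * s m) (m + 2) := by
  obtain ⟨t, ht, ht0, -, h⟩ := good_iter hs hs0 hv hv0 hτ k
  simp only [h]
  refine ⟨mul_pos (pow_pos (hτ0 _) _) (ht0 _), ?_⟩
  have e1 : m + 2 + k = m + k + 2 := by ring
  have e2 : m + 1 + k = m + k + 1 := by ring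
  rw [e1, e2]
  have e4 : τ (m + k) ^ (2 ^ k) * τ (m + k + 2) ^ (2 ^ k) =
      (τ (m + k + 1) ^ (2 ^ k)) ^ 2 * (1 + v (m + k)) ^ (2 ^ k) := by
    rw [← mul_pow, hτ, mul_pow, ← pow_mul, ← pow_mul, mul_comm 2]
  have b1 : 1 + 2 ^ k * v (m + k) ≤ (1 + v (m + k)) ^ (2 ^ k) := by
    have := one_add_mul_le_pow (a := v (m + k)) (by linarith [hv0 (m + k)]) (2 ^ k)
    simpa using this
  have b2 : t (m + 1) ^ 2 ≤ t m * t (m + 2) := by
    have := ht.L.nonneg m
    simp only [L] at this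
    linarith
  have b3 : 0 ≤ 1 + 2 ^ k * v (m + k) := by
    have := hv0 (m + k)
    positivity
  calc _ = (τ (m + k + 1) ^ (2 ^ k)) ^ 2 * ((1 + 2 ^ k * v (m + k)) * t (m + 1) ^ 2) := by ring
    _ ≤ (τ (m + k + 1) ^ (2 ^ k)) ^ 2 * ((1 + v (m + k)) ^ (2 ^ k) * (t m * t (m + 2))) := by
        apply mul_le_mul_of_nonneg_left _ (by positivity)
        exact mul_le_mul b1 b2 (by positivity) (b3.trans b1)
    _ = (τ (m + k) ^ (2 ^ k) * τ (m + k + 2) ^ (2 ^ k)) * (t m * t (m + 2)) := by rw [e4]; ring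
    _ = _ := by ring

lemma prod_close {a b p q η : ℝ} (hp : 0 < p) (hq : 0 < q) (h0 : 0 ≤ η) (h1 : η ≤ 1)
    (ha : |a - p| ≤ η * p) (hb : |b - q| ≤ η * q) : |a * b - p * q| ≤ 3 * η * (p * q) := by
  have e : a * b - p * q = (a - p) * (b - q) + (a - p) * q + p * (b - q) := by ring
  rw [e]
  have t1 : |(a - p) * (b - q)| ≤ η * p * (η * q) := by
    rw [abs_mul]; exact mul_le_mul ha hb (abs_nonneg _) (by positivity)
  have t2 : |(a - p) * q| ≤ η * p * q := by
    rw [abs_mul, abs_of_pos hq]; exact mul_le_mul_of_nonneg_right ha hq.le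
  have t3 : |p * (b - q)| ≤ p * (η * q) := by
    rw [abs_mul, abs_of_pos hp]; exact mul_le_mul_of_nonneg_left hb hp.le
  have t4 : η * p * (η * q) ≤ η * p * q := by
    apply mul_le_mul_of_nonneg_left _ (by positivity)
    nlinarith
  have := abs_add_three ((a - p) * (b - q)) ((a - p) * q) (p * (b - q))
  nlinarith

lemma perturb_step {a0 a1 a2 q0 q1 q2 η Γ : ℝ} (h0 : 0 < q0) (h1 : 0 < q1) (h2 : 0 < q2)
    (hη : 0 ≤ η) (hη1 : η ≤ 1) (e0 : |a0 - q0| ≤ η * q0) (e1 : |a1 - q1| ≤ η * q1)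
    (e2 : |a2 - q2| ≤ η * q2) (hΓ : q1 ^ 2 ≤ Γ * (q0 * q2 - q1 ^ 2)) :
    |(a0 * a2 - a1 ^ 2) - (q0 * q2 - q1 ^ 2)| ≤ η * (3 * (1 + 2 * Γ)) * (q0 * q2 - q1 ^ 2) := by
  have t1 := prod_close h0 h2 hη hη1 e0 e2
  have t2 := prod_close h1 h1 hη hη1 e1 e1
  have e : (a0 * a2 - a1 ^ 2) - (q0 * q2 - q1 ^ 2) = (a0 * a2 - q0 * q2) - (a1 * a1 - q1 * q1) := by
    ring
  rw [e]
  have := abs_sub (a0 * a2 - q0 * q2) (a1 * a1 - q1 * q1)
  nlinarith

/-- The strong convexity condition at position `i`. -/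
def R (b : ℕ → ℝ) (i : ℕ) : Prop :=
  0 < b i ∧ 0 < b (i + 1) ∧ 0 < b (i + 2) ∧ 3 * b (i + 1) ^ 2 ≤ b i * b (i + 2)

lemma R.step {b : ℕ → ℝ} {i : ℕ} (h0 : R b i) (h1 : R b (i + 1)) (h2 : R b (i + 2)) :
    R (L b) i := by
  obtain ⟨p0, p1, p2, r0⟩ := h0
  obtain ⟨-, -, p3, r1⟩ := h1
  obtain ⟨-, -, p4, r2⟩ := h2
  simp only [R, L]
  simp only [add_assoc] at *
  norm_num at *
  have q0 : 2 * b (i + 1) ^ 2 ≤ b i * b (i + 2) - b (i + 1) ^ 2 := by linarith
  have q2 : 2 * b (i + 3) ^ 2 ≤ b (i + 2) * b (i + 4) - b (i + 3) ^ 2 := by linarith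
  have q1 : 0 < b (i + 1) * b (i + 3) - b (i + 2) ^ 2 := by nlinarith [sq_pos_of_pos p2]
  have q3 : b (i + 1) * b (i + 3) - b (i + 2) ^ 2 ≤ b (i + 1) * b (i + 3) := by
    nlinarith [sq_pos_of_pos p2]
  refine ⟨by nlinarith [sq_pos_of_pos p1], by linarith, by nlinarith [sq_pos_of_pos p3], ?_⟩
  have q4 : (b (i + 1) * b (i + 3) - b (i + 2) ^ 2) ^ 2 ≤ (b (i + 1) * b (i + 3)) ^ 2 :=
    pow_le_pow_left₀ q1.le q3 2
  have q5 : (2 * b (i + 1) ^ 2) * (2 * b (i + 3) ^ 2) ≤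
      (b i * b (i + 2) - b (i + 1) ^ 2) * (b (i + 2) * b (i + 4) - b (i + 3) ^ 2) :=
    mul_le_mul q0 q2 (by positivity) (le_trans (by positivity) q0)
  nlinarith [sq_nonneg (b (i + 1) * b (i + 3))]

lemma iter_shift (a : ℕ → ℝ) (i k m : ℕ) :
    L^[k] (fun m => a (i + m)) m = L^[k] a (i + m) := by
  induction k generalizing m with
  | zero => rfl
  | succ k ih =>
    rw [Function.iterate_succ_apply', Function.iterate_succ_apply']
    simp only [L, ih, add_assoc]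

/-- The level function. -/
def g (i : ℕ) : ℕ := Nat.log 2 (5 * i ^ 2) + 1

lemma g_lt (i : ℕ) : 5 * i ^ 2 < 2 ^ g i := Nat.lt_pow_succ_log_self (by norm_num) _

lemma g_mono {i j : ℕ} (h : i ≤ j) : g i ≤ g j := by
  unfold g
  have : 5 * i ^ 2 ≤ 5 * j ^ 2 := by gcongr
  have := Nat.log_mono_right (b := 2) this
  omega

lemma g_two {i : ℕ} (h : 80 ≤ i) : g (i + 2) ≤ g i + 1 := by
  unfold g
  have h1 : 5 * (i + 2) ^ 2 ≤ 5 * i ^ 2 * 2 := by nlinarith
  have h2 := Nat.log_mono_right (b := 2) h1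
  rw [Nat.log_mul_base (by norm_num) (by positivity)] at h2
  omega

lemma g_aux (n : ℕ) : 5 * ((n + 17) ^ 2 + 23 * (n + 17)) ^ 2 ≤ 64 * 2 ^ (n + 16) := by
  induction n with
  | zero => norm_num
  | succ n ih =>
    have : 5 * ((n + 1 + 17) ^ 2 + 23 * (n + 1 + 17)) ^ 2 ≤
        2 * (5 * ((n + 17) ^ 2 + 23 * (n + 17)) ^ 2) := by
      ring_nf; nlinarith [Nat.zero_le n, Nat.zero_le (n ^ 2), Nat.zero_le (n ^ 3), Nat.zero_le (n ^ 4)]
    calc _ ≤ _ := this
      _ ≤ 2 * (64 * 2 ^ (n + 16)) := by omega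
      _ = _ := by ring

lemma g_bound {i : ℕ} (h : 80 ≤ i) :
    4 * g i + 16 ≤ i ∧ 2 * g i + 8 + (g i + 3) * (g i + 8) ≤ 8 * i := by
  by_cases hg : g i ≤ 16
  · refine ⟨by omega, ?_⟩
    have : (g i + 3) * (g i + 8) ≤ 19 * 24 := Nat.mul_le_mul (by omega) (by omega)
    omega
  · obtain ⟨n, hn⟩ : ∃ n, g i = n + 17 := ⟨g i - 17, by omega⟩
    have h1 : 2 ^ (n + 16) ≤ 5 * i ^ 2 := by
      have : n + 16 = Nat.log 2 (5 * i ^ 2) := by unfold g at hn; omega
      rw [this]; exact Nat.pow_log_le_self 2 (by positivity)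
    have h2 := g_aux n
    have h3 : ((n + 17) ^ 2 + 23 * (n + 17)) ^ 2 ≤ (8 * i) ^ 2 := by nlinarith
    have h4 : (n + 17) ^ 2 + 23 * (n + 17) ≤ 8 * i := by
      exact (Nat.pow_le_pow_iff_left (by norm_num)).1 h3
    rw [hn]
    constructor <;> nlinarith

lemma sumT (G : ℕ) : 2 * ∑ j ∈ range (G + 3), (G + 5 - j) = (G + 3) * (G + 8) := by
  have h : ∀ n, n ≤ G + 3 → 2 * ∑ j ∈ range n, (G + 5 - j) + n * n = n * (2 * G + 11) := by
    intro n hn
    induction n with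
    | zero => simp
    | succ n ih =>
      rw [sum_range_succ]
      have := ih (by omega)
      obtain ⟨t, ht⟩ : ∃ t, G + 5 = n + t := ⟨G + 5 - n, by omega⟩
      have e : G + 5 - n = t := by omega
      rw [e]
      nlinarith
  have := h (G + 3) le_rfl
  nlinarith

theorem tail {a : ℕ → ℝ} {i : ℕ} (hi : 80 ≤ i) (hw : Window a i) :
    (∀ k ≤ g i + 3, 0 < L^[k] a i) ∧ ∀ k, g i + 2 ≤ k → k ≤ g i + 3 → R (L^[k] a) i := by
  obtain ⟨τ, v, s, hs, hs0, hv, hτ0, hτ, hvb, ha⟩ := hw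
  have hv0 : ∀ m, 0 < v m := by
    intro m
    by_contra hn
    push Not at hn
    have := hvb m
    have : 2 * ((i : ℝ) + m + 2) ^ 2 * v m ≤ 0 := mul_nonpos_of_nonneg_of_nonpos (by positivity) hn
    linarith
  obtain ⟨b1, b2⟩ := g_bound hi
  set G := g i with hG
  set η0 : ℝ := 8 * (i : ℝ) ^ 2 / 16 ^ i with hη0
  set q : ℕ → ℕ → ℝ := fun k => L^[k] (fun m => τ m * s m) with hq
  have hq0 : ∀ k m, 0 < q k m := fun k m => (good_ratio hs hs0 hv hv0 hτ0 hτ k m).1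
  have hG5 : 5 * (i : ℝ) ^ 2 < 2 ^ G := by exact_mod_cast g_lt i
  have hγ : ∀ m, m + 2 ≤ 2 * G + 8 → 1 ≤ 2 ^ G * v m := by
    intro m hm
    have h1 : 2 * (m + 2) ≤ i := by omega
    have h2 : 2 * ((m : ℝ) + 2) ≤ i := by exact_mod_cast h1
    have h3 : 2 * ((i : ℝ) + m + 2) ^ 2 ≤ 2 ^ G := by
      have : (0 : ℝ) ≤ m := by positivity
      nlinarith
    exact (hvb m).trans (mul_le_mul_of_nonneg_right h3 (hv0 m).le)
  have hr : ∀ k m, m + k + 2 ≤ 2 * G + 8 →
      (2 ^ G + 2 ^ k) * q k (m + 1) ^ 2 ≤ 2 ^ G * (q k m * q k (m + 2)) := by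
    intro k m hm
    have h1 := (good_ratio hs hs0 hv hv0 hτ0 hτ k m).2
    have h2 := hγ (m + k) hm
    have h3 : (2 : ℝ) ^ G + 2 ^ k ≤ 2 ^ G * (1 + 2 ^ k * v (m + k)) := by
      have : (2 : ℝ) ^ k * 1 ≤ 2 ^ k * (2 ^ G * v (m + k)) :=
        mul_le_mul_of_nonneg_left h2 (by positivity)
      nlinarith
    calc _ ≤ 2 ^ G * (1 + 2 ^ k * v (m + k)) * q k (m + 1) ^ 2 :=
          mul_le_mul_of_nonneg_right h3 (by positivity)
      _ = 2 ^ G * ((1 + 2 ^ k * v (m + k)) * q k (m + 1) ^ 2) := by ring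
      _ ≤ _ := mul_le_mul_of_nonneg_left h1 (by positivity)
  set η : ℕ → ℝ := fun k => η0 * 2 ^ (∑ j ∈ range k, (G + 5 - j)) with hη
  have hη00 : 0 ≤ η0 := by positivity
  have hηb : ∀ k ≤ G + 3, η k ≤ 1 / 8 := by
    intro k hk
    have h1 : ∑ j ∈ range k, (G + 5 - j) ≤ ∑ j ∈ range (G + 3), (G + 5 - j) :=
      sum_le_sum_of_subset (range_subset_range.2 hk)
    have h2 := sumT G
    have h3 : ∑ j ∈ range k, (G + 5 - j) + G + 4 ≤ 4 * i := by omega
    have h4 : (2 : ℝ) ^ (∑ j ∈ range k, (G + 5 - j) + G + 4) ≤ 2 ^ (4 * i) :=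
      pow_le_pow_right₀ (by norm_num) h3
    rw [pow_mul, pow_add, pow_add] at h4
    simp only [hη, hη0]
    rw [div_mul_eq_mul_div, div_le_div_iff₀ (by positivity) (by norm_num)]
    norm_num at h4 ⊢
    have h5 : (0 : ℝ) < 2 ^ (∑ j ∈ range k, (G + 5 - j)) := by positivity
    nlinarith
  have key : ∀ k ≤ G + 3, ∀ m, m + 2 * k ≤ 2 * G + 8 →
      |L^[k] a (i + m) - q k m| ≤ η k * q k m := by
    intro k
    induction k with
    | zero =>
      intro _ m hm
      simpa [hη, hq] using ha m (by omega)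
    | succ k ih =>
      intro hk m hm
      have i0 := ih (by omega) m (by omega)
      have i1 := ih (by omega) (m + 1) (by omega)
      have i2 := ih (by omega) (m + 2) (by omega)
      obtain ⟨t, ht⟩ : ∃ t, G + 3 = k + t := ⟨G + 3 - k, by omega⟩
      have h1 := hr k m (by omega)
      have h2 : (2 : ℝ) ^ G * 8 = 2 ^ k * 2 ^ t := by
        rw [← pow_add, ← ht, pow_add]; norm_num
      have hΓ : q k (m + 1) ^ 2 ≤ (2 ^ t / 8) * (q k m * q k (m + 2) - q k (m + 1) ^ 2) := by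
        have h3 : (0 : ℝ) < 2 ^ k := by positivity
        have h4 : (2 : ℝ) ^ k * q k (m + 1) ^ 2 ≤
            2 ^ k * ((2 ^ t / 8) * (q k m * q k (m + 2) - q k (m + 1) ^ 2)) := by
          have : (2 : ℝ) ^ k * ((2 ^ t / 8) * (q k m * q k (m + 2) - q k (m + 1) ^ 2)) =
              2 ^ G * (q k m * q k (m + 2) - q k (m + 1) ^ 2) := by
            rw [← mul_assoc, ← mul_div_assoc, ← h2]; ring
          rw [this]; nlinarith
        exact le_of_mul_le_mul_left h4 h3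
      have hηk : 0 ≤ η k := by simp only [hη]; positivity
      have st := perturb_step (hq0 k m) (hq0 k (m + 1)) (hq0 k (m + 2)) hηk
        ((hηb k (by omega)).trans (by norm_num)) i0 i1 i2 hΓ
      have e1 : L^[k + 1] a (i + m) =
          L^[k] a (i + m) * L^[k] a (i + (m + 2)) - L^[k] a (i + (m + 1)) ^ 2 := by
        rw [Function.iterate_succ_apply']; simp only [L, add_assoc]
      have e2 : q (k + 1) m = q k m * q k (m + 2) - q k (m + 1) ^ 2 := by
        simp only [hq]; rw [Function.iterate_succ_apply']; simp only [L]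
      have e3 : η (k + 1) = η k * (4 * 2 ^ t) := by
        simp only [hη]
        rw [sum_range_succ, pow_add]
        have : G + 5 - k = t + 2 := by omega
        rw [this]; ring
      have h5 := hq0 (k + 1) m
      rw [e1, e3]
      rw [e2] at h5 ⊢
      refine st.trans (mul_le_mul_of_nonneg_right (mul_le_mul_of_nonneg_left ?_ hηk) h5.le)
      have : (1 : ℝ) ≤ 2 ^ t := one_le_pow₀ (by norm_num)
      linarith
  have two : ∀ k ≤ G + 3, ∀ m, m + 2 * k ≤ 2 * G + 8 →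
      7 / 8 * q k m ≤ L^[k] a (i + m) ∧ L^[k] a (i + m) ≤ 9 / 8 * q k m := by
    intro k hk m hm
    have h1 := key k hk m hm
    have h2 : η k * q k m ≤ 1 / 8 * q k m := mul_le_mul_of_nonneg_right (hηb k hk) (hq0 k m).le
    have h3 := abs_le.1 (h1.trans h2)
    constructor <;> linarith [h3.1, h3.2]
  constructor
  · intro k hk
    have := (two k hk 0 (by omega)).1
    have := hq0 k 0
    simp only [add_zero] at *
    linarith
  · intro k hk1 hk2
    obtain ⟨x0, -⟩ := two k hk2 0 (by omega)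
    obtain ⟨x1, y1⟩ := two k hk2 1 (by omega)
    obtain ⟨x2, -⟩ := two k hk2 2 (by omega)
    have p0 := hq0 k 0
    have p1 := hq0 k 1
    have p2 := hq0 k 2
    have h1 := hr k 0 (by omega)
    simp only [add_zero, zero_add] at *
    have h2 : (4 : ℝ) * 2 ^ G ≤ 2 ^ k := by
      have : (2 : ℝ) ^ (G + 2) ≤ 2 ^ k := pow_le_pow_right₀ (by norm_num) hk1
      rw [pow_add] at this; linarith
    have h3 : 5 * q k 1 ^ 2 ≤ q k 0 * q k 2 := by
      have h4 : (0 : ℝ) < 2 ^ G := by positivity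
      have : 2 ^ G * (5 * q k 1 ^ 2) ≤ 2 ^ G * (q k 0 * q k 2) := by
        nlinarith [sq_pos_of_pos p1]
      exact le_of_mul_le_mul_left this h4
    refine ⟨by linarith, by linarith, by linarith, ?_⟩
    have h5 : L^[k] a (i + 1) ^ 2 ≤ (9 / 8 * q k 1) ^ 2 := pow_le_pow_left₀ (by linarith) y1 2
    have h6 : (7 / 8 * q k 0) * (7 / 8 * q k 2) ≤ L^[k] a i * L^[k] a (i + 2) :=
      mul_le_mul x0 x2 (by positivity) (by linarith)
    nlinarith [sq_pos_of_pos p1]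

theorem criterion {a : ℕ → ℝ} (hw : ∀ i, 80 ≤ i → Window a i)
    (hpos : ∀ k ≤ 12, ∀ i < 80, 0 < L^[k] a i) (hR : ∀ i < 92, R (L^[12] a) i) :
    ∀ k i, 0 < L^[k] a i := by
  have base : ∀ t ≤ 6, ∀ i, i + 2 * t < 92 → R (L^[12 + t] a) i := by
    intro t
    induction t with
    | zero => intro _ i hi; exact hR i (by omega)
    | succ t ih =>
      intro ht i hi
      rw [← add_assoc, Function.iterate_succ_apply']
      exact R.step (ih (by omega) i (by omega)) (ih (by omega) (i + 1) (by omega))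
        (ih (by omega) (i + 2) (by omega))
  have g81 : g 81 ≤ 16 := by
    have : Nat.log 2 (5 * 81 ^ 2) < 16 := Nat.log_lt_of_lt_pow (by norm_num) (by norm_num)
    unfold g; omega
  have big : ∀ k i, 80 ≤ i → g i + 2 ≤ k → R (L^[k] a) i := by
    intro k
    induction k with
    | zero => intro i _ h; omega
    | succ k ih =>
      intro i hi h
      by_cases hk : k + 1 ≤ g i + 3
      · exact (tail hi (hw i hi)).2 _ h hk
      · have h2 := g_two hi
        have h1 : g (i + 1) ≤ g (i + 2) := g_mono (by omega)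
        rw [Function.iterate_succ_apply']
        exact R.step (ih i hi (by omega)) (ih (i + 1) (by omega) (by omega))
          (ih (i + 2) (by omega) (by omega))
  have small : ∀ t i, i ≤ 81 → R (L^[18 + t] a) i ∨ 80 ≤ i := by
    intro t
    induction t with
    | zero =>
      intro i _
      by_cases h : 80 ≤ i
      · exact Or.inr h
      · exact Or.inl (base 6 le_rfl i (by omega))
    | succ t ih =>
      intro i _
      by_cases h : 80 ≤ i
      · exact Or.inr h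
      · left
        have get : ∀ j ≤ 81, R (L^[18 + t] a) j := by
          intro j hj
          rcases ih j hj with h' | h'
          · exact h'
          · have := g_mono hj
            exact big _ j h' (by omega)
        rw [← add_assoc, Function.iterate_succ_apply']
        exact R.step (get i (by omega)) (get (i + 1) (by omega)) (get (i + 2) (by omega))
  intro k i
  by_cases hi : 80 ≤ i
  · by_cases hk : k ≤ g i + 3
    · exact (tail hi (hw i hi)).1 k hk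
    · exact (big k i hi (by omega)).1
  · by_cases hk : k ≤ 12
    · exact hpos k hk i (by omega)
    · by_cases hk2 : k ≤ 18
      · obtain ⟨t, rfl⟩ : ∃ t, k = 12 + t := ⟨k - 12, by omega⟩
        exact (base t (by omega) i (by omega)).1
      · obtain ⟨t, rfl⟩ : ∃ t, k = 18 + t := ⟨k - 18, by omega⟩
        rcases small t i (by omega) with h | h
        · exact h.1
        · omega

end Pool.Agent.H420Z.Apery
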