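import Pool.Agent.H420Z.Apery.Binom

/-!
Window decomposition of the second Apery sequence.
-/

namespace Pool.Agent.H420Z.Apery

open Finset Filter Topology

/-- The dominant root. -/
noncomputable def M : ℝ := (11 + 5 * √5) / 2

/-- The distance of the two roots. -/
noncomputable def N : ℝ := 5 * √5

lemma r_lo : (2236067977499 : ℝ) / 10 ^ 12 ≤ √5 := Real.le_sqrt_of_sq_le (by norm_num)

lemma r_hi : √5 ≤ (2236067977500 : ℝ) / 10 ^ 12 := by
  rw [Real.sqrt_le_left (by norm_num)]; norm_num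

lemma M_eq : M * (M - 11) = 1 := by
  have : √5 * √5 = 5 := Real.mul_self_sqrt (by norm_num)
  unfold M; nlinarith

lemma N_eq : N = 2 * M - 11 := by unfold M N; ring

lemma M_lo : 11 ≤ M := by have := r_lo; unfold M; linarith

lemma M_hi : M ≤ 111 / 10 := by have := r_hi; unfold M; linarith

lemma N_pos : 0 < N := by have := M_lo; rw [N_eq]; linarith

/-- Taylor coefficients of the density at the top of the support. -/
noncomputable def d : ℕ → ℝ
  | 0 => 1
  | 1 => (M - 3) / N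
  | j + 2 => (((M + N) * (j + 1) * (j + 2) + M - 3) * d (j + 1) - M * (j + 1) ^ 2 * d j) /
      (N * (j + 2) ^ 2)

lemma drec (j : ℕ) : N * ((j : ℝ) + 1) ^ 2 * d (j + 1) =
    ((M + N) * j * (j + 1) + M - 3) * d j - M * (j : ℝ) ^ 2 * d (j - 1) := by
  have := N_pos
  cases j with
  | zero => simp [d]; field_simp
  | succ j =>
    simp only [d, Nat.add_sub_cancel]
    push_cast
    field_simp
    ring

/-- Ratio invariant. -/
def P (j : ℕ) (σ : ℝ) : Prop := 0 < d j ∧ σ * d j ≤ d (j + 1)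

lemma P.step {j : ℕ} {σ σ' : ℝ} (h : P j σ) (hσ : 0 < σ)
    (hi : N * ((j : ℝ) + 2) ^ 2 * σ' * σ + M * ((j : ℝ) + 1) ^ 2 ≤
      ((M + N) * (j + 1) * (j + 2) + M - 3) * σ) : P (j + 1) σ' := by
  obtain ⟨h0, h1⟩ := h
  have h2 : 0 < d (j + 1) := lt_of_lt_of_le (by positivity) h1
  refine ⟨h2, ?_⟩
  have h3 := drec (j + 1)
  simp only [Nat.add_sub_cancel] at h3
  push_cast at h3
  have hN := N_pos
  have hM := M_lo
  have h4 : 0 < N * ((j : ℝ) + 2) ^ 2 * σ := by positivity
  apply le_of_mul_le_mul_left _ h4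
  have h5 : M * ((j : ℝ) + 1) ^ 2 * (σ * d j) ≤ M * ((j : ℝ) + 1) ^ 2 * d (j + 1) :=
    mul_le_mul_of_nonneg_left h1 (by positivity)
  have h6 := mul_le_mul_of_nonneg_right hi h2.le
  have h7 : N * ((j : ℝ) + 2) ^ 2 * σ * d (j + 1 + 1) =
      σ * (((M + N) * (j + 1) * (j + 2) + M - 3) * d (j + 1) - M * ((j : ℝ) + 1) ^ 2 * d j) := by
    linear_combination σ * h3
  rw [h7]
  nlinarith

/-- Integer form of the step inequality. -/
def okd (ρ j s s' : ℕ) : Bool :=
  Nat.ble (10 * ρ * (j + 2) ^ 2 * s * s' + (11 * 10 ^ 12 + 5 * ρ) * (j + 1) ^ 2 * 10 ^ 18)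
    (((11 * 10 ^ 12 + 15 * ρ) * (j + 1) * (j + 2) + 5 * 10 ^ 12 + 5 * ρ) * s * 10 ^ 9)

/-- Candidate for the next ratio. -/
def nxt (ρ j s : ℕ) : ℕ :=
  (((11 * 10 ^ 12 + 15 * ρ) * (j + 1) * (j + 2) + 5 * 10 ^ 12 + 5 * ρ) * s * 10 ^ 9 -
    (11 * 10 ^ 12 + 5 * ρ) * (j + 1) ^ 2 * 10 ^ 18) / (10 * ρ * (j + 2) ^ 2 * s) - 1

/-- The checking loop. -/
def loop : ℕ → ℕ → ℕ → Bool
  | 0, _, s => Nat.ble 995500000 s
  | n + 1, j, s => force (nxt 2236067977499 j s) fun s' =>
      Nat.blt 0 s && okd 2236067977499 j s s' && okd 2236067977500 j s s' &&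
        force (j + 1) fun j' => loop n j' s'

lemma P.mono {j : ℕ} {σ σ' : ℝ} (h : P j σ) (hs : σ' ≤ σ) : P j σ' :=
  ⟨h.1, (mul_le_mul_of_nonneg_right hs h.1.le).trans h.2⟩

lemma loop_sound (n j s : ℕ) (h : loop n j s = true) (hp : P j (s / 10 ^ 9)) :
    (∀ i ≤ n, 0 < d (j + i)) ∧ P (j + n) (9955 / 10000) := by
  induction n generalizing j s with
  | zero =>
    simp only [loop, Nat.ble_eq] at h
    have : (995500000 : ℝ) ≤ s := by exact_mod_cast h
    refine ⟨fun i hi => ?_, hp.mono ?_⟩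
    · obtain rfl : i = 0 := by omega
      exact hp.1
    · rw [le_div_iff₀ (by norm_num)]; linarith
  | succ n ih =>
    simp only [loop, force_eq, Bool.and_eq_true, Nat.blt_eq, okd, Nat.ble_eq] at h
    obtain ⟨⟨⟨h0, h1⟩, h2⟩, h3⟩ := h
    set s' := nxt 2236067977499 j s
    have hs : (0 : ℝ) < s := by exact_mod_cast h0
    have h1' := (Nat.cast_le (α := ℝ)).2 h1
    have h2' := (Nat.cast_le (α := ℝ)).2 h2
    push_cast at h1' h2'
    have hq : P (j + 1) (s' / 10 ^ 9) := by
      refine hp.step (by positivity) ?_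
      unfold M N
      have a := r_lo
      have b := r_hi
      set r := √5
      set X : ℝ := (15 * (j + 1) * (j + 2) + 5) * s * 10 ^ 9 - 10 * (j + 2) ^ 2 * s * s' -
        5 * (j + 1) ^ 2 * 10 ^ 18 with hX
      set Y : ℝ := (11 * (j + 1) * (j + 2) + 5) * s * 10 ^ 9 - 11 * (j + 1) ^ 2 * 10 ^ 18 with hY
      have k1 : 0 ≤ 2236067977499 / 10 ^ 12 * X + Y := by
        rw [hX, hY]; linarith
      have k2 : 0 ≤ 2236067977500 / 10 ^ 12 * X + Y := by
        rw [hX, hY]; linarith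
      have k3 : 0 ≤ r * X + Y := by
        rcases le_total 0 X with hx | hx
        · nlinarith
        · nlinarith
      rw [hX, hY] at k3
      linarith
    obtain ⟨i1, i2⟩ := ih _ _ h3 hq
    refine ⟨fun i hi => ?_, by rw [← add_assoc, add_right_comm]; exact i2⟩
    cases i with
    | zero => exact hp.1
    | succ i => rw [← add_assoc, add_right_comm]; exact i1 i (by omega)

lemma loop_true : loop 240 0 723606797 = true := by decide +kernel

lemma d_pos (j : ℕ) : 0 < d j := by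
  have h0 : P 0 ((723606797 : ℕ) / 10 ^ 9) := by
    refine ⟨by simp [d], ?_⟩
    simp only [d, zero_add, mul_one]
    rw [le_div_iff₀ N_pos]
    have a := r_lo
    have b := r_hi
    unfold M N
    push_cast
    linarith
  obtain ⟨h1, h2⟩ := loop_sound _ _ _ loop_true h0
  have h3 : ∀ t, P (240 + t) (9955 / 10000) := by
    intro t
    induction t with
    | zero => simpa using h2
    | succ t ih =>
      refine ih.step (by norm_num) ?_
      have a := r_lo
      have b := r_hi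
      unfold M N
      push_cast
      set r := √5
      have ht : (0 : ℝ) ≤ t := by positivity
      have ht2 : (0 : ℝ) ≤ t ^ 2 := by positivity
      nlinarith [mul_nonneg ht (sub_nonneg.2 a), mul_nonneg ht (sub_nonneg.2 b),
        mul_nonneg ht2 (sub_nonneg.2 a), mul_nonneg ht2 (sub_nonneg.2 b)]
  by_cases hj : j ≤ 240
  · simpa using h1 j hj
  · obtain ⟨t, rfl⟩ : ∃ t, j = 240 + t := ⟨j - 240, by omega⟩
    exact (h3 t).1

lemma d_anti (j : ℕ) : d (j + 1) ≤ d j := by
  have hN := N_pos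
  have hM := M_lo
  have hE := N_eq
  induction j with
  | zero =>
    simp only [d, zero_add]
    rw [div_le_one hN]; linarith
  | succ j ih =>
    have h3 := drec (j + 1)
    simp only [Nat.add_sub_cancel] at h3
    push_cast at h3
    have h4 : 0 < N * ((j : ℝ) + 1 + 1) ^ 2 := by positivity
    apply le_of_mul_le_mul_left _ h4
    rw [h3]
    have h5 : M * ((j : ℝ) + 1) ^ 2 * d (j + 1) ≤ M * ((j : ℝ) + 1) ^ 2 * d j :=
      mul_le_mul_of_nonneg_left ih (by positivity)
    have h6 := d_pos (j + 1)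
    have h7 : (M + N) * (j + 1) * (j + 1 + 1) + M - 3 - M * ((j : ℝ) + 1) ^ 2 ≤
        N * ((j : ℝ) + 1 + 1) ^ 2 := by
      have hj : (0 : ℝ) ≤ j := by positivity
      rw [hE]; nlinarith
    nlinarith

lemma d_le (j : ℕ) : d j ≤ 1 := by
  induction j with
  | zero => simp [d]
  | succ j ih => exact (d_anti j).trans ih

/-- Beta moments. -/
noncomputable def bb (n j : ℕ) : ℝ := (n.factorial * j.factorial : ℝ) / (n + j + 1).factorial

lemma bb_pos (n j : ℕ) : 0 < bb n j := by unfold bb; positivity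

lemma bb_left (n j : ℕ) : bb (n + 1) j = bb n j * (n + 1) / (n + j + 2) := by
  unfold bb
  have e : n + 1 + j + 1 = (n + j + 1) + 1 := by ring
  rw [e, Nat.factorial_succ (n + j + 1), Nat.factorial_succ n]
  push_cast
  field_simp
  ring

lemma bb_right (n j : ℕ) : bb n (j + 1) = bb n j * (j + 1) / (n + j + 2) := by
  unfold bb
  have e : n + (j + 1) + 1 = (n + j + 1) + 1 := by ring
  rw [e, Nat.factorial_succ (n + j + 1), Nat.factorial_succ j]
  push_cast
  field_simp
  ring

lemma bb_zero (n : ℕ) : bb n 0 = 1 / (n + 1) := by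
  unfold bb
  rw [add_zero, Nat.factorial_succ]
  push_cast
  field_simp
  simp

lemma bb_sum (n J : ℕ) : ∑ j ∈ range J, bb (n + 1) j = 1 / (n + 1) - bb n J := by
  induction J with
  | zero => simp [bb_zero]
  | succ J ih =>
    rw [sum_range_succ, ih, bb_left, bb_right]
    field_simp
    ring

lemma bb_le (n j : ℕ) : bb (n + 2) j ≤ 2 / (((j : ℝ) + 1) * (j + 2) * (j + 3)) := by
  induction n with
  | zero =>
    unfold bb
    have e : 0 + 2 + j + 1 = j + 1 + 1 + 1 := by ring
    rw [e, Nat.factorial_succ (j + 1 + 1), Nat.factorial_succ (j + 1), Nat.factorial_succ j]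
    push_cast
    apply le_of_eq
    field_simp
    norm_num [Nat.factorial]
    ring
  | succ n ih =>
    refine le_trans ?_ ih
    rw [show n + 1 + 2 = n + 2 + 1 by ring, bb_left, div_le_iff₀ (by positivity)]
    have := bb_pos (n + 2) j
    apply mul_le_mul_of_nonneg_left _ this.le
    have : (0 : ℝ) ≤ j := by positivity
    linarith

lemma sum_le (n J : ℕ) : ∑ j ∈ range J, d j * bb (n + 1) j ≤ 1 / (n + 1) := by
  calc _ ≤ ∑ j ∈ range J, bb (n + 1) j := sum_le_sum fun j _ => by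
        have := bb_pos (n + 1) j
        have := d_le j
        nlinarith
    _ ≤ _ := by rw [bb_sum]; linarith [bb_pos n J]

lemma summ (n : ℕ) : Summable fun j => d j * bb (n + 1) j :=
  summable_of_sum_range_le (fun j => (mul_pos (d_pos j) (bb_pos _ j)).le) (sum_le n)

/-- Normalised moments of the positive part. -/
noncomputable def pp (n : ℕ) : ℝ := ∑' j, d j * bb n j

lemma pp_le (n : ℕ) : pp (n + 1) ≤ 1 / (n + 1) :=
  (summ n).tsum_le_of_sum_range_le (sum_le n)

lemma pp_ge (n : ℕ) : 1 / ((n : ℝ) + 2) ≤ pp (n + 1) := by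
  have := (summ n).le_tsum 0 (fun j _ => (mul_pos (d_pos j) (bb_pos _ j)).le)
  rw [bb_zero] at this
  simp only [d, one_mul] at this
  push_cast at this
  rw [show (n : ℝ) + 2 = n + 1 + 1 by ring]
  exact this

lemma pp_tel (n J : ℕ) :
    ∑ j ∈ range J, (M * ((n : ℝ) + 2) ^ 2 * (d j * bb (n + 2) j) -
      (11 * ((n : ℝ) + 1) ^ 2 + 11 * (n + 1) + 3) * (d j * bb (n + 1) j) -
      (M - 11) * ((n : ℝ) + 1) ^ 2 * (d j * bb n j)) =
    (N * J * (n + J + 2) * d J - M * (J : ℝ) ^ 2 * d (J - 1)) * bb (n + 1) J := by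
  induction J with
  | zero => simp
  | succ J ih =>
    rw [sum_range_succ, ih]
    have h1 := drec J
    have hN := N_pos
    have h2 : d (J + 1) = (((M + N) * J * (J + 1) + M - 3) * d J - M * (J : ℝ) ^ 2 * d (J - 1)) /
        (N * ((J : ℝ) + 1) ^ 2) := by
      rw [eq_div_iff (by positivity)]; linarith
    rw [Nat.add_sub_cancel, h2, bb_right, show n + 2 = n + 1 + 1 by ring, bb_left (n + 1),
      bb_left n]
    push_cast
    have hN' : N ≠ 0 := hN.ne'
    field_simp
    rw [N_eq]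
    ring

lemma pp_rec (n : ℕ) : M * ((n : ℝ) + 3) ^ 2 * pp (n + 3) =
    (11 * ((n : ℝ) + 2) ^ 2 + 11 * (n + 2) + 3) * pp (n + 2) +
      (M - 11) * ((n : ℝ) + 2) ^ 2 * pp (n + 1) := by
  have h1 := ((((summ (n + 2)).hasSum.mul_left (M * ((n : ℝ) + 3) ^ 2)).sub
    ((summ (n + 1)).hasSum.mul_left (11 * ((n : ℝ) + 2) ^ 2 + 11 * (n + 2) + 3))).sub
    ((summ n).hasSum.mul_left ((M - 11) * ((n : ℝ) + 2) ^ 2))).tendsto_sum_nat
  have h2 : Tendsto (fun J : ℕ =>
      (N * J * (n + 1 + J + 2) * d J - M * (J : ℝ) ^ 2 * d (J - 1)) * bb (n + 2) J) atTop (𝓝 0) := by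
    have h0 := tendsto_one_div_add_atTop_nhds_zero_nat (𝕜 := ℝ)
    have h3 := h0.const_mul (2 * (N * (n + 3) + M))
    rw [mul_zero] at h3
    refine squeeze_zero_norm (fun J => ?_) h3
    have hN := N_pos
    have hM := M_lo
    have hJ : (0 : ℝ) ≤ J := by positivity
    have hn : (0 : ℝ) ≤ n := by positivity
    have a1 := d_pos J
    have a2 := d_le J
    have a3 := d_pos (J - 1)
    have a4 := d_le (J - 1)
    have a5 := bb_pos (n + 2) J
    have a6 := bb_le n J
    rw [Real.norm_eq_abs, abs_mul, abs_of_pos a5]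
    have b1 : N * J * (n + 1 + J + 2) * d J ≤ N * (n + 3) * ((J + 2) * (J + 3)) := by
      calc _ ≤ N * J * (n + 1 + J + 2) * 1 := by gcongr
        _ = N * (J * (n + 1 + J + 2)) := by ring
        _ ≤ N * ((n + 3) * ((J + 2) * (J + 3))) := by
          apply mul_le_mul_of_nonneg_left _ hN.le
          nlinarith [mul_nonneg hn hJ, mul_nonneg hn (mul_nonneg hJ hJ)]
        _ = _ := by ring
    have b2 : M * (J : ℝ) ^ 2 * d (J - 1) ≤ M * ((J + 2) * (J + 3)) := by
      calc _ ≤ M * (J : ℝ) ^ 2 * 1 := by gcongr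
        _ ≤ _ := by nlinarith
    have b3 : 0 ≤ N * J * (n + 1 + J + 2) * d J := by positivity
    have b4 : 0 ≤ M * (J : ℝ) ^ 2 * d (J - 1) := by positivity
    have b5 : |N * J * (n + 1 + J + 2) * d J - M * (J : ℝ) ^ 2 * d (J - 1)| ≤
        (N * (n + 3) + M) * ((J + 2) * (J + 3)) := by
      rw [abs_le]; constructor <;> nlinarith
    calc _ ≤ (N * (n + 3) + M) * ((J + 2) * (J + 3)) * (2 / (((J : ℝ) + 1) * (J + 2) * (J + 3))) :=
          mul_le_mul b5 a6 a5.le (by positivity)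
      _ = _ := by field_simp
  have h4 := h1.congr (f₂ := fun J : ℕ =>
      (N * J * (n + 1 + J + 2) * d J - M * (J : ℝ) ^ 2 * d (J - 1)) * bb (n + 2) J) (fun J => by
    have := pp_tel (n + 1) J
    push_cast at this
    rw [← this]
    refine sum_congr rfl fun j _ => ?_
    ring)
  have := tendsto_nhds_unique h4 h2
  unfold pp
  linarith

/-- The positive part, index shifted by one. -/
noncomputable def p (n : ℕ) : ℝ := M ^ (n + 1) * pp (n + 1)

lemma p_ge (n : ℕ) : M ^ (n + 1) / (n + 2) ≤ p n := by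
  have := M_lo
  rw [div_eq_mul_one_div]
  exact mul_le_mul_of_nonneg_left (pp_ge n) (by positivity)

lemma p_le (n : ℕ) : p n ≤ M ^ (n + 1) / (n + 1) := by
  have := M_lo
  rw [div_eq_mul_one_div]
  exact mul_le_mul_of_nonneg_left (pp_le n) (by positivity)

lemma p_pos (n : ℕ) : 0 < p n := by
  have := M_lo
  exact lt_of_lt_of_le (by positivity) (p_ge n)

lemma p_rec (n : ℕ) : ((n : ℝ) + 3) ^ 2 * p (n + 2) =
    (11 * ((n : ℝ) + 2) ^ 2 + 11 * (n + 2) + 3) * p (n + 1) + ((n : ℝ) + 2) ^ 2 * p n := by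
  unfold p
  have h := pp_rec n
  have e := M_eq
  linear_combination M ^ (n + 2) * h + M ^ (n + 1) * ((n : ℝ) + 2) ^ 2 * pp (n + 1) * e

lemma caso (n : ℕ) : ((n : ℝ) + 2) ^ 2 * |Bn (n + 2) * p n - Bn (n + 1) * p (n + 1)| ≤ 144 * M := by
  induction n with
  | zero =>
    have b1 : Bn 1 = 3 := by decide
    have b2 : Bn 2 = 19 := by decide
    have a1 := p_le 0
    have a2 := p_le 1
    have a3 := p_pos 0
    have a4 := p_pos 1
    have := M_lo
    have := M_hi
    simp only [zero_add, b1, b2] at *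
    norm_num at *
    have : |19 * p 0 - 3 * p 1| ≤ 36 * M := by
      rw [abs_le]; constructor <;> nlinarith
    linarith
  | succ n ih =>
    have h1 := Bn_rec (n + 1)
    have h2 := p_rec n
    push_cast at h1 ⊢
    have e : ((n : ℝ) + 1 + 2) ^ 2 * (Bn (n + 1 + 2) * p (n + 1) - Bn (n + 1 + 1) * p (n + 1 + 1)) =
        -(((n : ℝ) + 2) ^ 2 * (Bn (n + 2) * p n - Bn (n + 1) * p (n + 1))) := by
      linear_combination p (n + 1) * h1 - Bn (n + 2) * h2
    rw [← abs_of_pos (show 0 < ((n : ℝ) + 1 + 2) ^ 2 by positivity), ← abs_mul, e, abs_neg,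
      abs_mul, abs_of_pos (show 0 < ((n : ℝ) + 2) ^ 2 by positivity)]
    exact ih

lemma rho_step (n : ℕ) :
    |Bn (n + 2) / p (n + 1) - Bn (n + 1) / p n| ≤ 288 / M ^ (2 * (n + 1)) := by
  have hM := M_lo
  have a1 := p_pos n
  have a2 := p_pos (n + 1)
  have a3 := p_ge n
  have a4 := p_ge (n + 1)
  have a5 := caso n
  push_cast at a4
  have hn : (0 : ℝ) ≤ n := by positivity
  rw [div_sub_div _ _ a2.ne' a1.ne', abs_div, abs_of_pos (mul_pos a2 a1), mul_comm (p (n + 1)),
    div_le_div_iff₀ (by positivity) (by positivity)]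
  set W := |Bn (n + 2) * p n - Bn (n + 1) * p (n + 1)|
  have hW : 0 ≤ W := abs_nonneg _
  rw [div_le_iff₀ (by positivity)] at a3 a4
  have b1 : M ^ (n + 1 + 1) * M ^ (n + 1) ≤ (p (n + 1) * (n + 1 + 2)) * (p n * (n + 2)) :=
    mul_le_mul a4 a3 (by positivity) (by positivity)
  have b2 : M ^ (n + 1 + 1) * M ^ (n + 1) = M * M ^ (2 * (n + 1)) := by ring
  have b3 : (p (n + 1) * (n + 1 + 2)) * (p n * (n + 2)) ≤ 2 * ((n : ℝ) + 2) ^ 2 * (p (n + 1) * p n) := by
    have h0 := mul_pos a2 a1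
    have h1 : ((n : ℝ) + 1 + 2) * (n + 2) ≤ 2 * ((n : ℝ) + 2) ^ 2 := by nlinarith
    have := mul_le_mul_of_nonneg_right h1 h0.le
    linarith
  have b4 : W * (M * M ^ (2 * (n + 1))) ≤ W * (2 * ((n : ℝ) + 2) ^ 2 * (p (n + 1) * p n)) :=
    mul_le_mul_of_nonneg_left (by linarith) hW
  have b5 : (((n : ℝ) + 2) ^ 2 * W) * (2 * (p (n + 1) * p n)) ≤ (144 * M) * (2 * (p (n + 1) * p n)) :=
    mul_le_mul_of_nonneg_right a5 (by positivity)
  have : M * (W * M ^ (2 * (n + 1))) ≤ M * (288 * (p (n + 1) * p n)) := by nlinarith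
  exact le_of_mul_le_mul_left this (by linarith)

lemma rho_window (n m : ℕ) :
    |Bn (n + m + 1) / p (n + m) - Bn (n + 1) / p n| ≤ m * (288 / M ^ (2 * (n + 1))) := by
  induction m with
  | zero => simp
  | succ m ih =>
    have h1 := rho_step (n + m)
    have h2 : 288 / M ^ (2 * (n + m + 1)) ≤ 288 / M ^ (2 * (n + 1)) := by
      have := M_lo
      apply div_le_div_of_nonneg_left (by norm_num) (by positivity)
      exact pow_le_pow_right₀ (by linarith) (by omega)
    have h3 := abs_sub_le ((Bn (n + m + 2) : ℝ) / p (n + m + 1)) (Bn (n + m + 1) / p (n + m))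
      (Bn (n + 1) / p n)
    push_cast
    rw [show n + (m + 1) + 1 = n + m + 2 by ring, show n + (m + 1) = n + m + 1 by ring]
    linarith

lemma SM_bb (i j : ℕ) : SM (fun m => ((i : ℝ) + m + 1) * bb (i + m) j) := by
  induction j with
  | zero =>
    convert SM.const zero_le_one using 2 with m
    rw [bb_zero]; push_cast; field_simp
  | succ j ih =>
    have := (ih.mul (SM.const (c := (j : ℝ) + 1) (by positivity))).mul
      (SM.inv (c := (i : ℝ) + j + 2) (by positivity))
    convert this using 2 with m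
    rw [bb_right]; push_cast; field_simp; ring

theorem windowB (i : ℕ) (hi : 80 ≤ i) : Window (fun m => (Bn m : ℝ)) i := by
  obtain ⟨n, rfl⟩ : ∃ n, i = n + 1 := ⟨i - 1, by omega⟩
  have hM := M_lo
  have hB : (4 : ℝ) ^ (n + 1) ≤ (n + 1) * Bn (n + 1) := by
    have h1 := (Nat.four_pow_lt_mul_centralBinom (n + 1) (by omega)).le
    have h2 := h1.trans (Nat.mul_le_mul_left _ (Bn_ge (n + 1)))
    exact_mod_cast h2
  set κ : ℝ := Bn (n + 1) / p n with hκ
  have hκ1 : 4 ^ (n + 1) ≤ κ * M ^ (n + 1) := by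
    have a := p_le n
    have b := p_pos n
    rw [le_div_iff₀ (by positivity)] at a
    rw [hκ, div_mul_eq_mul_div, le_div_iff₀ b]
    have : (0 : ℝ) ≤ Bn (n + 1) := by positivity
    nlinarith [mul_le_mul_of_nonneg_right hB b.le, mul_le_mul_of_nonneg_left a this]
  have hκ0 : 0 < κ := by
    by_contra h
    push Not at h
    have : κ * M ^ (n + 1) ≤ 0 := mul_nonpos_of_nonpos_of_nonneg h (by positivity)
    have : (0 : ℝ) < 4 ^ (n + 1) := by positivity
    linarith
  refine ⟨fun m => 1 / ((n : ℝ) + m + 2), fun m => 1 / (m + ((n : ℝ) + 2)) * (1 / (m + ((n : ℝ) + 4))),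
    fun m => κ * (((n : ℝ) + m + 2) * p (n + m)), ?_, ?_, ?_, ?_, ?_, ?_, ?_⟩
  · have h1 : SM (fun m => ((n : ℝ) + m + 2) * pp (n + m + 1)) := by
      refine SM.hasSum (F := fun j m => d j * ((((n + 1 : ℕ) : ℝ) + m + 1) * bb (n + 1 + m) j))
        (fun j => (SM.const (d_pos j).le).mul (SM_bb (n + 1) j)) fun m => ?_
      have := (summ (n + m)).hasSum.mul_left ((n : ℝ) + m + 2)
      have e : (fun j => d j * ((((n + 1 : ℕ) : ℝ) + m + 1) * bb (n + 1 + m) j)) =
          fun j => ((n : ℝ) + m + 2) * (d j * bb (n + m + 1) j) := by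
        ext j
        rw [show n + 1 + m = n + m + 1 by ring]; push_cast; ring
      rw [e]; exact this
    have h2 := (SM.atom (w := κ * M ^ (n + 1)) (x := M) (by positivity) (by positivity)).mul h1
    convert h2 using 2 with m
    unfold p; ring
  · intro m
    have := p_pos (n + m)
    positivity
  · exact (SM.inv (by positivity)).mul (SM.inv (by positivity))
  · intro m; positivity
  · intro m; push_cast; field_simp; ring
  · intro m
    push_cast
    have hn : (0 : ℝ) ≤ n := by positivity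
    have hm : (0 : ℝ) ≤ m := by positivity
    rw [one_div_mul_one_div, ← div_eq_mul_one_div, le_div_iff₀ (by positivity)]
    nlinarith
  · intro m hm
    have a := p_pos (n + m)
    have e : 1 / ((n : ℝ) + m + 2) * (κ * (((n : ℝ) + m + 2) * p (n + m))) = κ * p (n + m) := by
      field_simp
    simp only [e]
    have h1 := rho_window n m
    rw [← hκ] at h1
    have e2 : (Bn (n + 1 + m) : ℝ) - κ * p (n + m) =
        (Bn (n + m + 1) / p (n + m) - κ) * p (n + m) := by
      rw [show n + 1 + m = n + m + 1 by ring]; field_simp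
    rw [e2, abs_mul, abs_of_pos a, ← mul_assoc]
    apply mul_le_mul_of_nonneg_right _ a.le
    refine h1.trans ?_
    have hm' : (m : ℝ) ≤ n + 1 := by exact_mod_cast hm
    have hn' : (79 : ℝ) ≤ n := by exact_mod_cast (by omega : 79 ≤ n)
    push_cast
    have h4 : (4 : ℝ) ^ (n + 1) ≤ M ^ (n + 1) := pow_le_pow_left₀ (by norm_num) (by linarith) _
    have h16 : (16 : ℝ) ^ (n + 1) = 4 ^ (n + 1) * 4 ^ (n + 1) := by rw [← mul_pow]; norm_num
    have hMM : M ^ (2 * (n + 1)) = M ^ (n + 1) * M ^ (n + 1) := by ring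
    rw [h16, hMM, ← mul_div_assoc, div_mul_eq_mul_div,
      div_le_div_iff₀ (by positivity) (by positivity)]
    set x : ℝ := 4 ^ (n + 1)
    set y : ℝ := M ^ (n + 1)
    have hx : 0 < x := by positivity
    have t1 : x * x ≤ (κ * y) * y := mul_le_mul hκ1 h4 hx.le (by linarith)
    have t2 : (m : ℝ) * 288 ≤ 8 * ((n : ℝ) + 1) ^ 2 := by nlinarith
    calc _ ≤ 8 * ((n : ℝ) + 1) ^ 2 * ((κ * y) * y) :=
          mul_le_mul t2 t1 (by positivity) (by positivity)
      _ = _ := by ring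

end Pool.Agent.H420Z.Apery
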