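import Pool.Agent.H420Z.Apery.RepA
import Pool.Agent.H420Z.Apery.RepB
import Pool.Agent.H420Z.Apery.CheckA
import Pool.Agent.H420Z.Apery.CheckB

/-!
Both Apery sequences are infinitely log-convex.
-/

namespace Pool.Agent.H420Z.Apery

lemma cast_iter (a : ℕ → ℤ) (k n : ℕ) :
    (((fun (a : ℕ → ℤ) (m : ℕ) => a m * a (m + 2) - a (m + 1) ^ 2)^[k] a n : ℤ) : ℝ) =
      L^[k] (fun m => (a m : ℝ)) n := by
  induction k generalizing n with
  | zero => rfl
  | succ k ih =>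
    rw [Function.iterate_succ_apply', Function.iterate_succ_apply']
    simp only [L, ← ih]
    push_cast; ring

lemma posA (k n : ℕ) : 0 < L^[k] (fun m => (An m : ℝ)) n := by
  have h := finite_of_chk An (An'_eq ▸ chkA)
  exact criterion windowA h.1 h.2 k n

lemma posB (k n : ℕ) : 0 < L^[k] (fun m => (Bn m : ℝ)) n := by
  have h := finite_of_chk Bn (Bn'_eq ▸ chkB)
  exact criterion windowB h.1 h.2 k n

theorem finalA (k n : ℕ) : 0 ≤ ((fun (a : ℕ → ℤ) (m : ℕ) => a m * a (m + 2) - a (m + 1) ^ 2)^[k]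
    (fun m : ℕ => ∑ j ∈ Finset.range (m + 1),
      ((m.choose j : ℕ) : ℤ) ^ 2 * (((m + j).choose j : ℕ) : ℤ) ^ 2)) n := by
  have h := posA k n
  rw [← Int.cast_nonneg_iff (R := ℝ), cast_iter]
  convert h.le using 3 with m
  simp [An]

theorem finalB (k n : ℕ) : 0 ≤ ((fun (a : ℕ → ℤ) (m : ℕ) => a m * a (m + 2) - a (m + 1) ^ 2)^[k]
    (fun m : ℕ => ∑ j ∈ Finset.range (m + 1),
      ((m.choose j : ℕ) : ℤ) ^ 2 * (((m + j).choose j : ℕ) : ℤ))) n := by
  have h := posB k n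
  rw [← Int.cast_nonneg_iff (R := ℝ), cast_iter]
  convert h.le using 3 with m
  simp [Bn]

end Pool.Agent.H420Z.Apery
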