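import Pool.Agent.H420Z.Apery.Binom

/-!
Shifted Legendre polynomials and a Saalschutz type identity.
-/

namespace Pool.Agent.H420Z.Apery

open Finset

section
variable {K : Type*} [Field K] [CharZero K]

/-- Normalised central binomial coefficients. -/
noncomputable def al (K : Type*) [Field K] (j : ℕ) : K := (j.centralBinom : K) / 4 ^ j

lemma al_succ (j : ℕ) : ((j : K) + 1) * al K (j + 1) = (j + 1 / 2) * al K j := by
  have := congrArg (Nat.cast : ℕ → K) (Nat.succ_mul_centralBinom_succ j)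
  push_cast at this
  unfold al
  rw [pow_succ]
  field_simp
  linear_combination 2 * this

/-- Coefficients of shifted Legendre polynomials. -/
noncomputable def cc (K : Type*) [Field K] (n k : ℕ) : K := (n.choose k : K) * ((n + k).choose k : K)

lemma cc_left (n k : ℕ) : cc K n k * (n + 1 + k) = cc K (n + 1) k * (n + 1 - k) := by
  have a1 := c1 (K := K) n k
  have a2 := c1 (K := K) (n + k) k
  unfold cc
  rw [show n + 1 + k = n + k + 1 by ring]
  push_cast at a2
  have h : (n : K) + 1 ≠ 0 := by exact_mod_cast Nat.succ_ne_zero n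
  apply mul_left_cancel₀ h
  linear_combination ((n + k).choose k : K) * (n + 1 + k) * a1 +
    ((n + 1).choose k : K) * (n + 1 - k) * a2

lemma cc_right (n k : ℕ) : cc K n (k + 1) * (k + 1) ^ 2 = cc K n k * (n - k) * (n + k + 1) := by
  have a1 := c3 (K := K) n k
  have a2 := c2 (K := K) (n + k) k
  unfold cc
  rw [show n + (k + 1) = n + k + 1 by ring]
  push_cast at a2
  linear_combination ((n + k + 1).choose (k + 1) : K) * (k + 1) * a1 +
    (n.choose k : K) * (n - k) * a2

lemma cc_zero (n : ℕ) : cc K n 0 = 1 := by simp [cc]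

lemma cc_big {n k : ℕ} (h : n < k) : cc K n k = 0 := by
  simp [cc, Nat.choose_eq_zero_of_lt h]

lemma cc_rec (n k : ℕ) : ((n : K) + 2) * cc K (n + 2) (k + 1) =
    (2 * n + 3) * (cc K (n + 1) (k + 1) + 2 * cc K (n + 1) k) - (n + 1) * cc K n (k + 1) := by
  have a1 := cc_left (K := K) (n + 1) k
  have a2 := cc_left (K := K) n k
  have a3 := cc_right (K := K) (n + 1 + 1) k
  have a4 := cc_right (K := K) (n + 1) k
  have a5 := cc_right (K := K) n k
  push_cast at *
  have h1 : (k : K) + 1 ≠ 0 := by exact_mod_cast Nat.succ_ne_zero k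
  have h2 : (n : K) + 1 + k ≠ 0 := by
    have : ((n + 1 + k : ℕ) : K) ≠ 0 := Nat.cast_ne_zero.2 (by omega)
    simpa using this
  have h3 : (n : K) + 1 + 1 + k ≠ 0 := by
    have : ((n + 1 + 1 + k : ℕ) : K) ≠ 0 := Nat.cast_ne_zero.2 (by omega)
    simpa using this
  rw [show n + 2 = n + 1 + 1 by ring]
  set u := cc K (n + 1 + 1) k
  have b1 : cc K (n + 1) k = u * (n + 1 + 1 - k) / (n + 1 + 1 + k) := by
    rw [eq_div_iff h3]; exact a1
  have b2 : cc K n k = cc K (n + 1) k * (n + 1 - k) / (n + 1 + k) := by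
    rw [eq_div_iff h2]; exact a2
  have b3 : cc K (n + 1 + 1) (k + 1) = u * (n + 1 + 1 - k) * (n + 1 + 1 + k + 1) / (k + 1) ^ 2 := by
    rw [eq_div_iff (pow_ne_zero 2 h1)]; exact a3
  have b4 : cc K (n + 1) (k + 1) = cc K (n + 1) k * (n + 1 - k) * (n + 1 + k + 1) / (k + 1) ^ 2 := by
    rw [eq_div_iff (pow_ne_zero 2 h1)]; exact a4
  have b5 : cc K n (k + 1) = cc K n k * (n - k) * (n + k + 1) / (k + 1) ^ 2 := by
    rw [eq_div_iff (pow_ne_zero 2 h1)]; exact a5
  rw [b3, b4, b5, b2, b1]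
  field_simp
  ring

/-- Shifted Legendre polynomial. -/
noncomputable def PL (n : ℕ) (x : K) : K := ∑ k ∈ range (n + 1), cc K n k * x ^ k

lemma PL_ext (n J : ℕ) (h : n ≤ J) (x : K) : PL n x = ∑ k ∈ range (J + 1), cc K n k * x ^ k := by
  refine sum_subset (range_subset_range.2 (by omega)) ?_
  intro k _ hk
  rw [cc_big (by simpa using hk)]; simp

lemma PL_rec (n : ℕ) (x : K) : ((n : K) + 2) * PL (n + 2) x =
    (2 * n + 3) * (1 + 2 * x) * PL (n + 1) x - (n + 1) * PL n x := by
  have e : (2 * n + 3) * (1 + 2 * x) * PL (n + 1) x =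
      (2 * n + 3) * PL (n + 1) x + (2 * n + 3) * (2 * x) * PL (n + 1) x := by ring
  rw [e]
  nth_rewrite 1 [PL_ext (n + 1) (n + 2) (by omega)]
  rw [PL_ext n (n + 2) (by omega), PL, PL, sum_range_succ' _ (n + 2), sum_range_succ' _ (n + 2),
    sum_range_succ' _ (n + 2)]
  simp only [cc_zero, mul_add, mul_sum]
  have : ∑ k ∈ range (n + 2), ((n : K) + 2) * (cc K (n + 2) (k + 1) * x ^ (k + 1)) =
      ∑ k ∈ range (n + 2), ((2 * n + 3) * (cc K (n + 1) (k + 1) * x ^ (k + 1)) +
        (2 * n + 3) * (2 * x) * (cc K (n + 1) k * x ^ k) -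
        (n + 1) * (cc K n (k + 1) * x ^ (k + 1))) := by
    refine sum_congr rfl fun k _ => ?_
    linear_combination x ^ (k + 1) * cc_rec (K := K) n k
  rw [this, sum_sub_distrib, sum_add_distrib]
  ring

/-- The convolution form. -/
noncomputable def QL (n : ℕ) (b c : K) : K :=
  ∑ p ∈ antidiagonal n, (al K p.1 * c ^ p.1) * (al K p.2 * b ^ p.2)

lemma QL_rec (n : ℕ) (b c : K) : ((n : K) + 2) * QL (n + 2) b c =
    (n + 3 / 2) * (b + c) * QL (n + 1) b c - (n + 1) * (b * c) * QL n b c := by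
  set S : ℕ → K := fun n => ∑ p ∈ antidiagonal n,
    (p.1 : K) * ((al K p.1 * c ^ p.1) * (al K p.2 * b ^ p.2)) with hS
  set T : ℕ → K := fun n => ∑ p ∈ antidiagonal n,
    (p.2 : K) * ((al K p.1 * c ^ p.1) * (al K p.2 * b ^ p.2)) with hT
  have h1 : ∀ n, S n + T n = n * QL n b c := by
    intro n
    simp only [hS, hT, QL, mul_sum, ← sum_add_distrib]
    refine sum_congr rfl fun p hp => ?_
    rw [← mem_antidiagonal.1 hp]; push_cast; ring
  have h2 : ∀ n, S (n + 1) = c * (S n + QL n b c / 2) := by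
    intro n
    simp only [hS, QL]
    rw [Nat.sum_antidiagonal_succ, sum_div, ← sum_add_distrib, mul_sum]
    simp only [Nat.cast_zero, zero_mul, zero_add]
    refine sum_congr rfl fun p _ => ?_
    push_cast
    linear_combination c ^ (p.1 + 1) * (al K p.2 * b ^ p.2) * al_succ (K := K) p.1
  have h3 : ∀ n, T (n + 1) = b * (T n + QL n b c / 2) := by
    intro n
    simp only [hT, QL]
    rw [Nat.sum_antidiagonal_succ', sum_div, ← sum_add_distrib, mul_sum]
    simp only [Nat.cast_zero, zero_mul, zero_add]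
    refine sum_congr rfl fun p _ => ?_
    push_cast
    linear_combination b ^ (p.2 + 1) * (al K p.1 * c ^ p.1) * al_succ (K := K) p.2
  have a0 := h1 n
  have a1 := h1 (n + 1)
  have a2 := h1 (n + 1 + 1)
  have a3 := h2 n
  have a4 := h3 n
  have a5 := h2 (n + 1)
  have a6 := h3 (n + 1)
  push_cast at *
  rw [show n + 2 = n + 1 + 1 by ring]
  linear_combination -a2 + a5 + a6 + (b + c) * a1 - b * a3 - c * a4 - b * c * a0

theorem legendre (b c x : K) (h1 : b * c = 1) (h2 : b + c = 2 + 4 * x) (n : ℕ) :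
    PL n x = QL n b c := by
  have key : ∀ n, PL n x = QL n b c ∧ PL (n + 1) x = QL (n + 1) b c := by
    intro n
    induction n with
    | zero =>
      constructor
      · simp [PL, QL, cc, al]
      · simp [PL, QL, cc, al, sum_range_succ, Nat.antidiagonal_succ, Nat.centralBinom]
        linear_combination (-1 / 2 : K) * h2
    | succ n ih =>
      refine ⟨ih.2, ?_⟩
      have a := PL_rec n x
      have b' := QL_rec n b c
      rw [ih.1, ih.2] at a
      rw [h1, h2] at b'
      have h : (n : K) + 2 ≠ 0 := by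
        have : ((n + 2 : ℕ) : K) ≠ 0 := Nat.cast_ne_zero.2 (by omega)
        simpa using this
      apply mul_left_cancel₀ h
      rw [a, b']; ring
  exact (key n).1

lemma QL_range (n : ℕ) (b c : K) : QL n b c =
    ∑ j ∈ range (n + 1), (al K j * c ^ j) * (al K (n - j) * b ^ (n - j)) :=
  Nat.sum_antidiagonal_eq_sum_range_succ (fun i j => (al K i * c ^ i) * (al K j * b ^ j)) n

lemma al_conv (n : ℕ) : ∑ j ∈ range (n + 1), al K j * al K (n - j) = 1 := by
  have := legendre (1 : K) 1 0 (by simp) (by norm_num) n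
  rw [QL_range, PL, sum_range_succ'] at this
  simpa [cc_zero] using this.symm

end

lemma saal_tel (n j J : ℕ) :
    ∑ k ∈ range J, (((n : ℝ) + 1 - j) ^ 2 * cc ℝ (n + 1) k - ((n : ℝ) + 1 + j) ^ 2 * cc ℝ n k) *
      ((k.choose j : ℝ) ^ 2 * ((2 * j).choose k : ℝ)) =
    -2 * J * ((J : ℝ) - j) ^ 2 * cc ℝ (n + 1) J * ((J.choose j : ℝ) ^ 2 * ((2 * j).choose J : ℝ)) /
      (n + 1 + J) := by
  induction J with
  | zero => simp
  | succ k ih =>
    rw [sum_range_succ, ih]
    have a1 := cc_left (K := ℝ) n k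
    have a2 := cc_right (K := ℝ) (n + 1) k
    have a3 := c1 (K := ℝ) k j
    have a4 := c3 (K := ℝ) (2 * j) k
    push_cast at *
    have h1 : (k : ℝ) + 1 ≠ 0 := by positivity
    have h2 : (n : ℝ) + 1 + k ≠ 0 := by positivity
    have b1 : cc ℝ n k = cc ℝ (n + 1) k * (n + 1 - k) / (n + 1 + k) := by
      rw [eq_div_iff h2]; exact a1
    have b2 : cc ℝ (n + 1) (k + 1) =
        cc ℝ (n + 1) k * (n + 1 - k) * (n + 1 + k + 1) / (k + 1) ^ 2 := by
      rw [eq_div_iff (pow_ne_zero 2 h1)]; exact a2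
    have b4 : ((2 * j).choose (k + 1) : ℝ) = ((2 * j).choose k : ℝ) * (2 * j - k) / (k + 1) := by
      rw [eq_div_iff h1]; exact a4
    have e : -2 * ((k : ℝ) + 1) * ((k : ℝ) + 1 - j) ^ 2 * cc ℝ (n + 1) (k + 1) *
        (((k + 1).choose j : ℝ) ^ 2 * ((2 * j).choose (k + 1) : ℝ)) =
        -2 * ((k : ℝ) + 1) * cc ℝ (n + 1) (k + 1) *
        ((((k + 1).choose j : ℝ) * (k + 1 - j)) ^ 2 * ((2 * j).choose (k + 1) : ℝ)) := by ring
    rw [e, ← a3, b1, b2, b4]
    field_simp
    ring

lemma saal (n j : ℕ) :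
    ∑ k ∈ range (n + 1), cc ℝ n k * ((k.choose j : ℝ) ^ 2 * ((2 * j).choose k : ℝ)) =
      cc ℝ n j ^ 2 := by
  have direct : ∀ n, n ≤ j →
      ∑ k ∈ range (n + 1), cc ℝ n k * ((k.choose j : ℝ) ^ 2 * ((2 * j).choose k : ℝ)) =
      cc ℝ n j ^ 2 := by
    intro n hn
    rw [sum_range_succ, sum_eq_zero]
    · rcases hn.eq_or_lt with rfl | h
      · simp [cc, two_mul, sq]
      · simp [cc, Nat.choose_eq_zero_of_lt h]
    · intro k hk
      have : k < j := by have := mem_range.1 hk; omega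
      simp [Nat.choose_eq_zero_of_lt this]
  induction n with
  | zero => 
    rcases Nat.eq_zero_or_pos j with rfl | h
    · simp [cc]
    · exact direct 0 (Nat.zero_le _)
  | succ n ih =>
    by_cases h : n + 1 ≤ j
    · exact direct _ h
    · have t := saal_tel n j (n + 2)
      rw [cc_big (n := n + 1) (k := n + 2) (by omega)] at t
      simp only [mul_zero, zero_mul, zero_div, sub_mul, sum_sub_distrib, mul_assoc, ← mul_sum] at t
      rw [sum_range_succ (fun k => cc ℝ n k * _) (n + 1), cc_big (n := n) (k := n + 1) (by omega),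
        zero_mul, add_zero, ih] at t
      have a := cc_left (K := ℝ) n j
      have hj : (j : ℝ) ≤ n := by exact_mod_cast (by omega : j ≤ n)
      have h0 : ((n : ℝ) + 1 - j) ^ 2 ≠ 0 := pow_ne_zero 2 (by linarith)
      apply mul_left_cancel₀ h0
      linear_combination t + (cc ℝ n j * (n + 1 + j) + cc ℝ (n + 1) j * (n + 1 - j)) * a

end Pool.Agent.H420Z.Apery
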