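import Pool.Agent.H420Z.Apery.Leg

/-!
Window decomposition of the first Apery sequence.
-/

namespace Pool.Agent.H420Z.Apery

open Finset

/-- Moments of the cosine of a uniform angle. -/
noncomputable def mom (r : ℕ) : ℝ := if r % 2 = 0 then ((r / 2).centralBinom : ℝ) / 2 ^ r else 0

/-- Grid values of the cosine. -/
noncomputable def cs (N u : ℕ) : ℝ := Real.cos (2 * Real.pi * u / N)

lemma cs_mom {N r : ℕ} (h : r < N) : ∑ u ∈ range N, cs N u ^ r = N * mom r := by
  have hN : N ≠ 0 := by omega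
  have hζ := Complex.isPrimitiveRoot_exp N hN
  set ζ := Complex.exp (2 * Real.pi * Complex.I / N) with hζd
  have hz0 : ζ ≠ 0 := Complex.exp_ne_zero _
  have hc : ∀ u : ℕ, ((cs N u : ℝ) : ℂ) = (ζ ^ u + ζ⁻¹ ^ u) / 2 := by
    intro u
    rw [cs, Complex.ofReal_cos, Complex.cos, hζd, ← Complex.exp_neg, ← Complex.exp_nat_mul,
      ← Complex.exp_nat_mul]
    congr 3 <;> push_cast <;> ring
  have hs : ∀ l ∈ range (r + 1), ∑ u ∈ range N, (ζ ^ l * ζ⁻¹ ^ (r - l)) ^ u =
      if l = r - l then (N : ℂ) else 0 := by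
    intro l hl
    have hl' : l ≤ r := by have := mem_range.1 hl; omega
    split_ifs with e
    · rw [← e, ← mul_pow, mul_inv_cancel₀ hz0]; simp
    · have h1 : ζ ^ l * ζ⁻¹ ^ (r - l) ≠ 1 := by
        intro h1
        rw [inv_pow, mul_inv_eq_one₀ (pow_ne_zero _ hz0)] at h1
        exact e (hζ.pow_inj (by omega) (by omega) h1)
      rw [geom_sum_eq h1, mul_pow, ← pow_mul, ← pow_mul, mul_comm l, mul_comm (r - l), pow_mul,
        pow_mul, inv_pow, hζ.pow_eq_one]
      simp
  apply Complex.ofReal_injective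
  push_cast
  simp only [hc, div_pow, add_pow]
  rw [← sum_div, sum_comm]
  have : ∑ l ∈ range (r + 1), ∑ u ∈ range N, (ζ ^ u) ^ l * (ζ⁻¹ ^ u) ^ (r - l) * (r.choose l : ℂ) =
      ∑ l ∈ range (r + 1), (if l = r - l then (N : ℂ) else 0) * (r.choose l : ℂ) := by
    refine sum_congr rfl fun l hl => ?_
    rw [← hs l hl, sum_mul]
    refine sum_congr rfl fun u _ => ?_
    rw [mul_pow, ← pow_mul, ← pow_mul, ← pow_mul, ← pow_mul, mul_comm u, mul_comm u]
  rw [this]
  unfold mom
  split_ifs with e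
  · obtain ⟨t, rfl⟩ : ∃ t, r = 2 * t := ⟨r / 2, by omega⟩
    rw [sum_eq_single t]
    · rw [if_pos (by omega), show 2 * t / 2 = t by omega, Nat.centralBinom]
      push_cast; ring
    · intro l hl hne
      rw [if_neg (by omega)]; simp
    · intro ht; exact absurd (mem_range.2 (by omega)) ht
  · rw [sum_eq_zero]
    · simp
    · intro l hl
      have := mem_range.1 hl
      rw [if_neg (by omega)]; simp

lemma sum_two (f : ℕ → ℝ) (n : ℕ) :
    ∑ l ∈ range (2 * n), f l = ∑ h ∈ range n, (f (2 * h) + f (2 * h + 1)) := by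
  induction n with
  | zero => simp
  | succ n ih => rw [show 2 * (n + 1) = 2 * n + 1 + 1 by ring, sum_range_succ, sum_range_succ, ih,
      sum_range_succ]; ring

lemma mom_conv (k : ℕ) :
    ∑ l ∈ range (k + 1), 4 ^ k * (k.choose l : ℝ) * (mom (k + (k - l)) * mom l) =
      ∑ j ∈ range (k + 1), (k.choose j : ℝ) ^ 2 * ((2 * j).choose k : ℝ) := by
  have h1 : ∑ l ∈ range (k + 1), 4 ^ k * (k.choose l : ℝ) * (mom (k + (k - l)) * mom l) =
      ∑ l ∈ range (2 * (k + 1)), 4 ^ k * (k.choose l : ℝ) * (mom (k + (k - l)) * mom l) := by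
    refine sum_subset (range_subset_range.2 (by omega)) ?_
    intro l _ hl
    rw [Nat.choose_eq_zero_of_lt (by simpa using hl)]; simp
  rw [h1, sum_two, ← sum_range_reflect]
  refine sum_congr rfl fun j hj => ?_
  have hj' : j ≤ k := by have := mem_range.1 hj; omega
  obtain ⟨h, rfl⟩ : ∃ h, k = j + h := ⟨k - j, by omega⟩
  rw [show j + h + 1 - 1 - j = h by omega]
  have z : mom (2 * h + 1) = 0 := by unfold mom; rw [if_neg (by omega)]
  rw [z, mul_zero, mul_zero, add_zero]
  by_cases hh : h ≤ j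
  · obtain ⟨t, rfl⟩ : ∃ t, j = h + t := ⟨j - h, by omega⟩
    rw [show h + t + h + (h + t + h - 2 * h) = 2 * (h + t) by omega]
    unfold mom
    rw [if_pos (by omega), if_pos (by omega), show 2 * (h + t) / 2 = h + t by omega,
      show 2 * h / 2 = h by omega, Nat.centralBinom, Nat.centralBinom,
      Nat.cast_choose ℝ (show 2 * h ≤ h + t + h by omega),
      Nat.cast_choose ℝ (show h + t ≤ 2 * (h + t) by omega),
      Nat.cast_choose ℝ (show h ≤ 2 * h by omega),
      Nat.cast_choose ℝ (show h + t ≤ h + t + h by omega),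
      Nat.cast_choose ℝ (show h + t + h ≤ 2 * (h + t) by omega),
      show h + t + h - 2 * h = t by omega, show 2 * (h + t) - (h + t) = h + t by omega,
      show 2 * h - h = h by omega, show h + t + h - (h + t) = h by omega,
      show 2 * (h + t) - (h + t + h) = t by omega,
      show (4 : ℝ) ^ (h + t + h) = 2 ^ (2 * (h + t)) * 2 ^ (2 * h) by
        rw [← pow_add, show (4 : ℝ) = 2 ^ 2 by norm_num, ← pow_mul]; congr 1; ring]
    field_simp
  · rw [Nat.choose_eq_zero_of_lt (show j + h < 2 * h by omega),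
      Nat.choose_eq_zero_of_lt (show 2 * j < j + h by omega)]
    simp

/-- The real random variable with Franel moments. -/
noncomputable def FF (N u w : ℕ) : ℝ := 4 * cs N u * (cs N w + cs N u)

lemma FF_ge (N u w : ℕ) : -1 ≤ FF N u w := by
  have h1 : cs N w ^ 2 ≤ 1 := Real.cos_sq_le_one _
  unfold FF
  nlinarith [sq_nonneg (2 * cs N u + cs N w)]

lemma FF_mom {N k : ℕ} (h : 2 * k < N) : ∑ u ∈ range N, ∑ w ∈ range N, FF N u w ^ k =
    (N : ℝ) ^ 2 * ∑ j ∈ range (k + 1), (k.choose j : ℝ) ^ 2 * ((2 * j).choose k : ℝ) := by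
  rw [← mom_conv, mul_sum]
  have : ∀ u w, FF N u w ^ k = ∑ l ∈ range (k + 1),
      4 ^ k * (k.choose l : ℝ) * (cs N u ^ (k + (k - l)) * cs N w ^ l) := by
    intro u w
    rw [FF, mul_pow, add_pow, mul_sum]
    refine sum_congr rfl fun l _ => ?_
    ring
  simp only [this]
  rw [sum_congr rfl fun u _ => sum_comm, sum_comm]
  refine sum_congr rfl fun l hl => ?_
  have hl' : l ≤ k := by have := mem_range.1 hl; omega
  simp only [← mul_sum]
  rw [← sum_mul, cs_mom (show l < N by omega), cs_mom (show k + (k - l) < N by omega)]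
  ring

lemma An_avg {N n : ℕ} (h : 2 * n < N) :
    ∑ u ∈ range N, ∑ w ∈ range N, PL n (FF N u w) = (N : ℝ) ^ 2 * An n := by
  unfold PL
  rw [sum_congr rfl fun u _ => sum_comm, sum_comm]
  have : ∀ k ∈ range (n + 1), ∑ u ∈ range N, ∑ w ∈ range N, cc ℝ n k * FF N u w ^ k =
      (N : ℝ) ^ 2 * ∑ j ∈ range (n + 1),
        cc ℝ n k * ((k.choose j : ℝ) ^ 2 * ((2 * j).choose k : ℝ)) := by
    intro k hk
    have hk' : k ≤ n := by have := mem_range.1 hk; omega
    simp only [← mul_sum]
    rw [FF_mom (by omega)]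
    have : ∑ j ∈ range (k + 1), (k.choose j : ℝ) ^ 2 * ((2 * j).choose k : ℝ) =
        ∑ j ∈ range (n + 1), (k.choose j : ℝ) ^ 2 * ((2 * j).choose k : ℝ) := by
      refine sum_subset (range_subset_range.2 (by omega)) ?_
      intro l _ hl
      rw [Nat.choose_eq_zero_of_lt (by simpa using hl)]; simp
    rw [this]; ring
  rw [sum_congr rfl this, ← mul_sum, sum_comm]
  congr 1
  unfold An
  push_cast
  refine sum_congr rfl fun j _ => ?_
  rw [saal, cc, mul_pow]

lemma al_pos (j : ℕ) : 0 < al ℝ j := by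
  have := Nat.centralBinom_pos j
  unfold al; positivity

lemma al_succ' (j : ℕ) : al ℝ j = al ℝ (j + 1) * (1 + 1 / 2 * (1 / (j + 1 / 2))) := by
  have := al_succ (K := ℝ) j
  field_simp
  linear_combination -2 * this

lemma SM_al (t j : ℕ) : SM (fun m => al ℝ (t + m) / al ℝ (t + j + m)) := by
  induction j with
  | zero =>
    convert SM.const zero_le_one using 2 with m
    rw [add_zero, div_self (al_pos _).ne']
  | succ j ih =>
    have := ih.mul ((SM.const zero_le_one).add ((SM.const (c := 1 / 2) (by norm_num)).mul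
      (SM.inv (c := (t : ℝ) + j + 1 / 2) (by positivity))))
    convert this using 2 with m
    rw [al_succ' (t + j + m), show t + (j + 1) + m = t + j + m + 1 by ring]
    have := al_pos (t + j + m + 1)
    push_cast
    rw [show (m : ℝ) + (t + j + 1 / 2) = t + j + m + 1 / 2 by ring]
    field_simp

lemma PL_neg {x : ℝ} (h1 : -1 ≤ x) (h2 : x ≤ 0) (n : ℕ) : |PL n x| ≤ 1 := by
  have h3 : 0 ≤ 1 - (1 + 2 * x) ^ 2 := by nlinarith
  set y := √(1 - (1 + 2 * x) ^ 2) with hy
  have hy2 : y ^ 2 = 1 - (1 + 2 * x) ^ 2 := Real.sq_sqrt h3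
  set b : ℂ := ⟨1 + 2 * x, y⟩ with hb
  set c : ℂ := ⟨1 + 2 * x, -y⟩ with hc
  have nb : ‖b‖ = 1 := by
    rw [Complex.norm_def, Complex.normSq_mk, Real.sqrt_eq_one]; nlinarith
  have nc : ‖c‖ = 1 := by
    rw [Complex.norm_def, Complex.normSq_mk, Real.sqrt_eq_one]; nlinarith
  have := legendre b c (x : ℂ) (by
    apply Complex.ext <;> simp [hb, hc] <;> nlinarith) (by
    apply Complex.ext <;> simp [hb, hc]; ring) n
  have e : ((PL n x : ℝ) : ℂ) = PL n (x : ℂ) := by simp [PL, cc]
  rw [← Real.norm_eq_abs, ← Complex.norm_real, e, this, QL_range, ← al_conv (K := ℝ) n]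
  refine (norm_sum_le _ _).trans (le_of_eq (sum_congr rfl fun j _ => ?_))
  have ea : ∀ j, ‖al ℂ j‖ = al ℝ j := by
    intro j; simp [al]
  simp [norm_mul, norm_pow, nb, nc, ea]

lemma PL_pt (i : ℕ) {x : ℝ} (h1 : -1 ≤ x) : ∃ s : ℕ → ℝ, SM s ∧ (0 ≤ x → ∀ m, 0 < s m) ∧
    ∀ m ≤ i, |PL (i + m) x - al ℝ (i + m) * s m| ≤ 1 := by
  by_cases h2 : 0 ≤ x
  · have h3 : 0 ≤ (1 + 2 * x) ^ 2 - 1 := by nlinarith
    set y := √((1 + 2 * x) ^ 2 - 1) with hy
    have hy2 : y ^ 2 = (1 + 2 * x) ^ 2 - 1 := Real.sq_sqrt h3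
    have hy0 : 0 ≤ y := Real.sqrt_nonneg _
    set b := 1 + 2 * x + y with hb
    set c := 1 + 2 * x - y with hc
    have hbc : b * c = 1 := by rw [hb, hc]; nlinarith
    have hb1 : 1 ≤ b := by rw [hb]; linarith
    have hc0 : 0 < c := by
      by_contra hn
      push Not at hn
      have : b * c ≤ 0 := mul_nonpos_of_nonneg_of_nonpos (by linarith) hn
      linarith
    have hc1 : c ≤ 1 := by nlinarith
    refine ⟨fun m => ∑ j ∈ range (i + 1), (al ℝ j * c ^ j * b ^ (i - j)) * b ^ m *
      (al ℝ (i - j + m) / al ℝ (i - j + j + m)), ?_, ?_, ?_⟩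
    · refine SM.sum _ fun j _ => (SM.atom ?_ (by linarith)).mul (SM_al _ _)
      have := al_pos j
      positivity
    · intro _ m
      refine sum_pos (fun j _ => ?_) (by simp)
      have := al_pos j
      have := al_pos (i - j + m)
      have := al_pos (i - j + j + m)
      positivity
    · intro m hm
      rw [legendre b c x hbc (by rw [hb, hc]; ring), QL_range]
      have e1 : al ℝ (i + m) * ∑ j ∈ range (i + 1), (al ℝ j * c ^ j * b ^ (i - j)) * b ^ m *
          (al ℝ (i - j + m) / al ℝ (i - j + j + m)) =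
          ∑ j ∈ range (i + 1), (al ℝ j * c ^ j) * (al ℝ (i + m - j) * b ^ (i + m - j)) := by
        rw [mul_sum]
        refine sum_congr rfl fun j hj => ?_
        have hj' : j ≤ i := by have := mem_range.1 hj; omega
        rw [show i - j + j + m = i + m by omega, show i + m - j = i - j + m by omega, pow_add]
        have := al_pos (i + m)
        field_simp
      rw [e1, ← sum_sdiff (range_subset_range.2 (show i + 1 ≤ i + m + 1 by omega)),
        add_sub_cancel_right, abs_of_nonneg (sum_nonneg fun j _ => by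
          have := al_pos j
          have := al_pos (i + m - j)
          positivity), ← al_conv (K := ℝ) (i + m)]
      calc _ ≤ ∑ j ∈ range (i + m + 1) \ range (i + 1), al ℝ j * al ℝ (i + m - j) := by
            refine sum_le_sum fun j hj => ?_
            simp only [mem_sdiff, mem_range] at hj
            obtain ⟨t, ht⟩ : ∃ t, j = (i + m - j) + t := ⟨j - (i + m - j), by omega⟩
            have e : c ^ j * b ^ (i + m - j) = c ^ t := by
              nth_rewrite 1 [ht]
              rw [pow_add, mul_right_comm, ← mul_pow, mul_comm c, hbc]; simp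
            have := al_pos j
            have := al_pos (i + m - j)
            calc _ = al ℝ j * al ℝ (i + m - j) * (c ^ j * b ^ (i + m - j)) := by ring
              _ ≤ al ℝ j * al ℝ (i + m - j) * 1 := by
                rw [e]; gcongr; exact pow_le_one₀ hc0.le hc1
              _ = _ := by ring
        _ ≤ _ := sum_le_sum_of_subset_of_nonneg sdiff_subset fun j _ _ =>
            (mul_pos (al_pos _) (al_pos _)).le
  · refine ⟨fun _ => 0, SM.const le_rfl, fun h => absurd h h2, fun m _ => ?_⟩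
    simpa using PL_neg h1 (by linarith) _

theorem windowA (i : ℕ) (hi : 80 ≤ i) : Window (fun m => (An m : ℝ)) i := by
  choose s hs1 hs2 hs3 using fun u w => PL_pt i (FF_ge (4 * i + 1) u w)
  set N := 4 * i + 1 with hN
  have hN0 : (0 : ℝ) < N := by positivity
  refine ⟨fun m => al ℝ (i + m),
    fun m => 1 / 2 * (1 / (m + ((i : ℝ) + 1 / 2)) * (1 / (m + ((i : ℝ) + 2)))),
    fun m => 1 / (N : ℝ) ^ 2 * ∑ u ∈ range N, ∑ w ∈ range N, s u w m, ?_, ?_, ?_, ?_, ?_, ?_, ?_⟩
  · exact (SM.const (by positivity)).mul (SM.sum _ fun u _ => SM.sum _ fun w _ => hs1 u w)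
  · intro m
    apply mul_pos (by positivity)
    refine sum_pos' (fun u _ => sum_nonneg fun w _ => (hs1 u w).nonneg m) ⟨0, by simp [hN], ?_⟩
    refine sum_pos' (fun w _ => (hs1 0 w).nonneg m) ⟨0, by simp [hN], ?_⟩
    exact hs2 0 0 (by simp [FF, cs]) m
  · exact (SM.const (by norm_num)).mul ((SM.inv (by positivity)).mul (SM.inv (by positivity)))
  · intro m; exact al_pos _
  · intro m
    show al ℝ (i + m) * al ℝ (i + m + 1 + 1) = al ℝ (i + m + 1) ^ 2 * _
    rw [al_succ' (i + m), al_succ' (i + m + 1)]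
    push_cast
    field_simp
    ring
  · intro m
    have hn : (0 : ℝ) ≤ i := by positivity
    have hm : (0 : ℝ) ≤ m := by positivity
    beta_reduce
    rw [one_div_mul_one_div (m + ((i : ℝ) + 1 / 2)), one_div_mul_one_div, ← div_eq_mul_one_div,
      le_div_iff₀ (by positivity)]
    nlinarith
  · intro m hm
    have h1 : |(An (i + m) : ℝ) -
        al ℝ (i + m) * (1 / (N : ℝ) ^ 2 * ∑ u ∈ range N, ∑ w ∈ range N, s u w m)| ≤ 1 := by
      have e : (An (i + m) : ℝ) -
          al ℝ (i + m) * (1 / (N : ℝ) ^ 2 * ∑ u ∈ range N, ∑ w ∈ range N, s u w m) =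
          (∑ u ∈ range N, ∑ w ∈ range N, (PL (i + m) (FF N u w) - al ℝ (i + m) * s u w m)) /
            (N : ℝ) ^ 2 := by
        simp only [sum_sub_distrib, ← mul_sum]
        rw [An_avg (by omega)]
        field_simp
      rw [e, abs_div, abs_of_pos (show (0 : ℝ) < (N : ℝ) ^ 2 by positivity),
        div_le_one (by positivity)]
      calc _ ≤ ∑ u ∈ range N, ∑ w ∈ range N, (1 : ℝ) :=
            (abs_sum_le_sum_abs _ _).trans (sum_le_sum fun u _ =>
              (abs_sum_le_sum_abs _ _).trans (sum_le_sum fun w _ => hs3 u w m hm))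
        _ = _ := by simp [sq]
    refine h1.trans ?_
    set q := al ℝ (i + m) * (1 / (N : ℝ) ^ 2 * ∑ u ∈ range N, ∑ w ∈ range N, s u w m)
    have h2 : (An (i + m) : ℝ) - 1 ≤ q := by linarith [(abs_le.1 h1).2]
    have h3 : 4 ^ i ≤ i * (i + m).centralBinom :=
      (Nat.four_pow_lt_mul_centralBinom i (by omega)).le.trans
        (Nat.mul_le_mul_left _ (Nat.centralBinom_strictMono.monotone (by omega)))
    have h4 : 16 ^ i ≤ i ^ 2 * An (i + m) := by
      calc 16 ^ i = (4 ^ i) ^ 2 := by rw [← pow_mul, mul_comm, pow_mul]; norm_num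
        _ ≤ (i * (i + m).centralBinom) ^ 2 := Nat.pow_le_pow_left h3 2
        _ ≤ _ := by rw [mul_pow]; exact Nat.mul_le_mul_left _ (An_ge _)
    have h5 : 2 ≤ An (i + m) := by
      have := Nat.two_le_centralBinom (i + m) (by omega)
      have := An_ge (i + m)
      nlinarith
    have h4' : (16 : ℝ) ^ i ≤ (i : ℝ) ^ 2 * An (i + m) := by exact_mod_cast h4
    have h5' : (2 : ℝ) ≤ An (i + m) := by exact_mod_cast h5
    rw [div_mul_eq_mul_div, le_div_iff₀ (by positivity)]
    have h6 : (An (i + m) : ℝ) ≤ 8 * q := by linarith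
    have := mul_le_mul_of_nonneg_left h6 (sq_nonneg (i : ℝ))
    linarith

end Pool.Agent.H420Z.Apery
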