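import Mathlib

/-!
Limits of finite atomic Stieltjes moment sequences: closure properties.
-/

namespace Pool.Agent.H420Z.Apery

open Filter Topology Finset

/-- The log-convexity operator on real sequences. -/
def L (a : ℕ → ℝ) : ℕ → ℝ := fun m => a m * a (m + 2) - a (m + 1) ^ 2

/-- Atoms. -/
def atoms : Set (ℕ → ℝ) := {s | ∃ w x : ℝ, 0 ≤ w ∧ 0 ≤ x ∧ s = fun m => w * x ^ m}

/-- Finite sums of atoms. -/
def fa : AddSubmonoid (ℕ → ℝ) := AddSubmonoid.closure atoms

/-- Pointwise limits of finite sums of atoms. -/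
def SM (s : ℕ → ℝ) : Prop := s ∈ closure (fa : Set (ℕ → ℝ))

lemma fa_bil (B : (ℕ → ℝ) → (ℕ → ℝ) → (ℕ → ℝ))
    (h0l : ∀ t, B 0 t = 0) (h0r : ∀ s, B s 0 = 0)
    (hl : ∀ s s' t, B (s + s') t = B s t + B s' t)
    (hr : ∀ s t t', B s (t + t') = B s t + B s t')
    (hat : ∀ s ∈ atoms, ∀ t ∈ atoms, B s t ∈ atoms)
    {s t : ℕ → ℝ} (hs : s ∈ fa) (ht : t ∈ fa) : B s t ∈ fa := by
  induction hs, ht using AddSubmonoid.closure_induction₂ with
  | mem x y hx hy => exact AddSubmonoid.subset_closure (hat x hx y hy)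
  | zero_left x _ => rw [h0l]; exact fa.zero_mem
  | zero_right x _ => rw [h0r]; exact fa.zero_mem
  | add_left x y z _ _ _ h1 h2 => rw [hl]; exact fa.add_mem h1 h2
  | add_right x y z _ _ _ h1 h2 => rw [hr]; exact fa.add_mem h1 h2

lemma SM.atom {w x : ℝ} (hw : 0 ≤ w) (hx : 0 ≤ x) : SM (fun m => w * x ^ m) :=
  subset_closure (AddSubmonoid.subset_closure ⟨w, x, hw, hx, rfl⟩)

lemma SM.const {c : ℝ} (hc : 0 ≤ c) : SM (fun _ => c) := by
  have := SM.atom hc zero_le_one
  simpa using this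

lemma SM.add {s t : ℕ → ℝ} (hs : SM s) (ht : SM t) : SM (fun m => s m + t m) :=
  map_mem_closure₂ (f := fun s t : ℕ → ℝ => s + t) (by fun_prop) hs ht
    (fun _ ha _ hb => fa.add_mem ha hb)

lemma SM.mul {s t : ℕ → ℝ} (hs : SM s) (ht : SM t) : SM (fun m => s m * t m) := by
  refine map_mem_closure₂ (f := fun s t : ℕ → ℝ => s * t) (by fun_prop) hs ht
    (fun a ha b hb => fa_bil (fun s t => s * t) (by simp) (by simp) add_mul mul_add ?_ ha hb)
  rintro _ ⟨w, x, hw, hx, rfl⟩ _ ⟨v, y, hv, hy, rfl⟩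
  exact ⟨w * v, x * y, by positivity, by positivity, by ext m; simp [mul_pow]; ring⟩

lemma SM.L {s : ℕ → ℝ} (hs : SM s) : SM (L s) := by
  have h : SM (fun m => (s m * s (m + 2) + s (m + 2) * s m - 2 * (s (m + 1) * s (m + 1))) / 2) := by
    refine map_mem_closure₂
      (f := fun s t : ℕ → ℝ => fun m =>
        (s m * t (m + 2) + s (m + 2) * t m - 2 * (s (m + 1) * t (m + 1))) / 2)
      (by fun_prop) hs hs
      (fun a ha b hb => fa_bil (fun s t => fun m =>
        (s m * t (m + 2) + s (m + 2) * t m - 2 * (s (m + 1) * t (m + 1))) / 2)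
        ?_ ?_ ?_ ?_ ?_ ha hb)
    · intro t; ext m; simp
    · intro t; ext m; simp
    · intro s s' t; ext m; simp; ring
    · intro s s' t; ext m; simp; ring
    · rintro _ ⟨w, x, hw, hx, rfl⟩ _ ⟨v, y, hv, hy, rfl⟩
      exact ⟨w * v * (x - y) ^ 2 / 2, x * y, by positivity, by positivity,
        by ext m; simp [mul_pow]; ring⟩
  convert h using 1
  ext m; simp [Apery.L]; ring

lemma SM.shift {s : ℕ → ℝ} (hs : SM s) : SM (fun m => s (m + 1)) := by
  refine map_mem_closure (f := fun s : ℕ → ℝ => fun m => s (m + 1)) (by fun_prop) hs ?_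
  intro a ha
  induction ha using AddSubmonoid.closure_induction with
  | mem x hx =>
    obtain ⟨w, x, hw, hx, rfl⟩ := hx
    exact AddSubmonoid.subset_closure ⟨w * x, x, by positivity, hx, by ext m; simp; ring⟩
  | zero => exact fa.zero_mem
  | add x y _ _ h1 h2 => exact fa.add_mem h1 h2

lemma SM.nonneg {s : ℕ → ℝ} (hs : SM s) (m : ℕ) : 0 ≤ s m := by
  have hc : IsClosed {s : ℕ → ℝ | 0 ≤ s m} := isClosed_le continuous_const (continuous_apply m)
  refine closure_minimal (t := {s : ℕ → ℝ | 0 ≤ s m}) ?_ hc hs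
  intro a ha
  induction ha using AddSubmonoid.closure_induction with
  | mem x hx =>
    obtain ⟨w, x, hw, hx, rfl⟩ := hx
    show 0 ≤ w * x ^ m
    positivity
  | zero => exact le_refl (0 : ℝ)
  | add x y _ _ h1 h2 => exact add_nonneg (a := x m) (b := y m) h1 h2

lemma SM.lim {F : ℕ → ℕ → ℝ} {s : ℕ → ℝ} (hF : ∀ N, SM (F N))
    (h : ∀ m, Tendsto (fun N => F N m) atTop (𝓝 (s m))) : SM s :=
  isClosed_closure.mem_of_tendsto (tendsto_pi_nhds.2 h) (Eventually.of_forall hF)

lemma SM.sum {ι : Type*} (I : Finset ι) {F : ι → ℕ → ℝ} (hF : ∀ i ∈ I, SM (F i)) :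
    SM (fun m => ∑ i ∈ I, F i m) := by
  classical
  induction I using Finset.induction_on with
  | empty => simpa using SM.const le_rfl
  | insert a I ha ih =>
    simp only [Finset.sum_insert ha]
    exact (hF a (by simp)).add (ih fun i hi => hF i (by simp [hi]))

lemma SM.prod {ι : Type*} (I : Finset ι) {F : ι → ℕ → ℝ} (hF : ∀ i ∈ I, SM (F i)) :
    SM (fun m => ∏ i ∈ I, F i m) := by
  classical
  induction I using Finset.induction_on with
  | empty => simpa using SM.const zero_le_one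
  | insert a I ha ih =>
    simp only [Finset.prod_insert ha]
    exact (hF a (by simp)).mul (ih fun i hi => hF i (by simp [hi]))

lemma SM.hasSum {F : ℕ → ℕ → ℝ} {s : ℕ → ℝ} (hF : ∀ j, SM (F j))
    (h : ∀ m, HasSum (fun j => F j m) (s m)) : SM s :=
  SM.lim (F := fun N m => ∑ j ∈ range N, F j m) (fun N => SM.sum _ fun j _ => hF j)
    (fun m => (h m).tendsto_sum_nat)

lemma SM.inv {c : ℝ} (hc : 0 < c) : SM (fun m => 1 / ((m : ℝ) + c)) := by
  refine SM.lim (F := fun N m => (1 / ((N : ℝ) + 1)) *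
      (1 - Real.exp (-(((m : ℝ) + c) * (1 / ((N : ℝ) + 1)))))⁻¹) ?_ ?_
  · intro N
    set h : ℝ := 1 / ((N : ℝ) + 1) with hh
    have hpos : 0 < h := by positivity
    refine SM.hasSum (F := fun j m => (h * Real.exp (-(c * h)) ^ j) * (Real.exp (-h) ^ j) ^ m)
      (fun j => SM.atom (by positivity) (by positivity)) ?_
    intro m
    have h1 : Real.exp (-(((m : ℝ) + c) * h)) < 1 := by
      rw [Real.exp_lt_one_iff]
      have : 0 < ((m : ℝ) + c) * h := by positivity
      linarith
    have := (hasSum_geometric_of_lt_one (Real.exp_pos _).le h1).mul_left h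
    have e : (fun j => (h * Real.exp (-(c * h)) ^ j) * (Real.exp (-h) ^ j) ^ m)
        = fun j => h * Real.exp (-(((m : ℝ) + c) * h)) ^ j := by
      ext j
      rw [← pow_mul, mul_comm j m, pow_mul, mul_assoc, ← mul_pow, ← Real.exp_nat_mul,
        ← Real.exp_add]
      congr 3; ring
    rw [e]; exact this
  · intro m
    set a : ℝ := (m : ℝ) + c with ha
    have hapos : 0 < a := by positivity
    have hd : HasDerivAt (fun h : ℝ => 1 - Real.exp (-(a * h))) a 0 := by
      have h1 : HasDerivAt (fun h : ℝ => -(a * h)) (-a) 0 := by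
        have h := ((hasDerivAt_id (0 : ℝ)).const_mul a).neg
        rw [mul_one] at h
        exact h
      have h2 := (h1.exp).const_sub 1
      simpa using h2
    have ht := hd.tendsto_slope_zero_right
    have h0 : Tendsto (fun N : ℕ => 1 / ((N : ℝ) + 1)) atTop (𝓝[>] 0) := by
      refine tendsto_nhdsWithin_iff.2 ⟨tendsto_one_div_add_atTop_nhds_zero_nat, ?_⟩
      exact Eventually.of_forall fun N => by simp only [Set.mem_Ioi]; positivity
    have h3 := (ht.comp h0).inv₀ hapos.ne'
    rw [one_div a]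
    refine h3.congr fun N => ?_
    simp [Function.comp, mul_comm]

lemma SM.pow_sub_one {v : ℕ → ℝ} (hv : SM v) (e : ℕ) : SM (fun m => (1 + v m) ^ e - 1) := by
  induction e with
  | zero => simpa using SM.const le_rfl
  | succ e ih =>
    have := (ih.add (ih.mul hv)).add hv
    convert this using 2 with m
    ring

end Pool.Agent.H420Z.Apery
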